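import Pool.Agent.TH4.CT.Transfer

set_option autoImplicit false

/-!
# Tuples of squarefree congruent numbers

The numbers `h (h² t⁴ - k⁴)` are congruent.
-/

namespace Pool.Agent.TH4.CT

open Finset Filter
open scoped Classical

/-- `d` is the area of a right triangle with rational sides -/
def IsCong (d : ℕ) : Prop :=
  ∃ a b c : ℚ, 0 < a ∧ 0 < b ∧ 0 < c ∧ a ^ 2 + b ^ 2 = c ^ 2 ∧ a * b / 2 = (d : ℚ)

lemma cong_of (h t k d : ℕ) (hh : 0 < h) (ht : 0 < t) (hk : 0 < k) (hd : 0 < d)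
    (hdk : d + h * k ^ 4 = h ^ 3 * t ^ 4) : IsCong d := by
  have hh' : (0 : ℚ) < h := by exact_mod_cast hh
  have ht' : (0 : ℚ) < t := by exact_mod_cast ht
  have hk' : (0 : ℚ) < k := by exact_mod_cast hk
  have hd' : (0 : ℚ) < d := by exact_mod_cast hd
  have e : (d : ℚ) = h * ((h * t ^ 2) ^ 2 - (k ^ 2) ^ 2) := by
    have : (d : ℚ) + h * k ^ 4 = h ^ 3 * t ^ 4 := by exact_mod_cast hdk
    linear_combination this
  have hpos : (0 : ℚ) < (h * t ^ 2) ^ 2 - (k ^ 2) ^ 2 := by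
    by_contra hn
    push Not at hn
    have := mul_nonpos_of_nonneg_of_nonpos hh'.le hn
    linarith
  refine ⟨((h * t ^ 2) ^ 2 - (k ^ 2) ^ 2) / (t * k), 2 * h * t * k,
    ((h * t ^ 2) ^ 2 + (k ^ 2) ^ 2) / (t * k), by positivity, by positivity, by positivity, ?_, ?_⟩
  · field_simp
    ring
  · rw [e]
    field_simp

/-- the integer function of `t` -/
def Df (h k : ℕ) (t : ℤ) : ℤ := h * (h ^ 2 * t ^ 4 - k ^ 4)

theorem tuples (h : ℕ) (hh : 0 < h) (K : Finset ℕ) (hK : ∀ k ∈ K, 0 < k)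
    (hloc : ∀ p : ℕ, p.Prime → ∃ t : ℕ, ∀ k ∈ K, ¬ (p : ℤ) ^ 2 ∣ Df h k t) :
    ∃ c : ℝ, 0 < c ∧ ∀ᶠ X : ℕ in atTop, c * (X : ℝ) ^ (1 / (4 : ℝ)) ≤
      (((Icc 1 X).filter (fun n : ℕ => ∃ t : ℕ, n = h ^ 3 * t ^ 4 ∧ ∀ k ∈ K, ∃ d : ℕ,
        d + h * k ^ 4 = n ∧ Squarefree d ∧ IsCong d)).card : ℝ) := by
  set S : ℕ := ∑ k ∈ K, k with hS
  have hkS : ∀ k ∈ K, k ≤ S := fun k hk => Finset.single_le_sum (f := fun k => k)
    (fun _ _ => Nat.zero_le _) hk
  set f : ℕ × Bool → ℤ → ℤ := fun i t => h * t ^ 2 + 0 * t + (if i.2 then (i.1 : ℤ) ^ 2 else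
    - (i.1 : ℤ) ^ 2) with hf
  have hsieve := sieve (K ×ˢ (univ : Finset Bool)) f K (fun k t => Df h k t) (2 + h + S) (h + 1) S
    ?_ ?_ ?_ ?_ hloc
  · obtain ⟨c, hc, hc2⟩ := hsieve
    have h1 : ∀ᶠ T : ℕ in atTop, c * T ≤ (((Icc 1 T).filter (fun t : ℕ => S < t ∧
        ∀ k ∈ K, Squarefree (Df h k t))).card : ℝ) := by
      filter_upwards [hc2] with T hT
      refine hT.trans ?_
      rw [Nat.cast_le]
      convert toNat_count T S (fun t => ∀ k ∈ K, Squarefree (Df h k t))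
    have h2 := to_X (h ^ 3) 4 (pow_pos hh 3) (by norm_num) (fun t : ℕ => S < t ∧
        ∀ k ∈ K, Squarefree (Df h k t)) (fun n : ℕ => ∃ t : ℕ, n = h ^ 3 * t ^ 4 ∧ ∀ k ∈ K,
          ∃ d : ℕ, d + h * k ^ 4 = n ∧ Squarefree d ∧ IsCong d) ?_ hc (by convert h1)
    · obtain ⟨c', hc', h3⟩ := h2
      refine ⟨c', hc', ?_⟩
      filter_upwards [h3] with X hX
      push_cast at hX
      convert hX
    · intro t ht ⟨hSt, hsq⟩
      refine ⟨t, rfl, fun k hk => ?_⟩
      have hkt : k < t := (hkS k hk).trans_lt hSt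
      have hle : h * k ^ 4 ≤ h ^ 3 * t ^ 4 := by
        have h3 : k ^ 4 ≤ t ^ 4 := Nat.pow_le_pow_left hkt.le 4
        calc h * k ^ 4 ≤ h * t ^ 4 := Nat.mul_le_mul_left _ h3
          _ ≤ h ^ 3 * t ^ 4 := by
            apply Nat.mul_le_mul_right
            exact Nat.le_self_pow (by norm_num) h
      have hsq' := hsq k hk
      have e : Df h k t = ((h ^ 3 * t ^ 4 - h * k ^ 4 : ℕ) : ℤ) := by
        rw [Nat.cast_sub hle]
        unfold Df
        push_cast
        ring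
      rw [e] at hsq'
      have hsq2 : Squarefree (h ^ 3 * t ^ 4 - h * k ^ 4) := Int.squarefree_natCast.1 hsq'
      refine ⟨h ^ 3 * t ^ 4 - h * k ^ 4, Nat.sub_add_cancel hle, hsq2, ?_⟩
      exact cong_of h t k _ hh ht (hK k hk) (Nat.pos_of_ne_zero hsq2.ne_zero)
        (Nat.sub_add_cancel hle)
  · -- roots
    rintro p hp hlt ⟨k, b⟩ hi
    have hk := (mem_product.1 hi).1
    have hkpos := hK k hk
    have hkle := hkS k hk
    have hpp : Prime (p : ℤ) := Nat.prime_iff_prime_int.1 hp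
    have n1 : ¬ (p : ℤ) ∣ h := by
      intro hd
      have := Nat.le_of_dvd hh (by exact_mod_cast hd)
      omega
    have n2 : ¬ (p : ℤ) ∣ k := by
      intro hd
      have := Nat.le_of_dvd hkpos (by exact_mod_cast hd)
      omega
    have n3 : ¬ (p : ℤ) ∣ 4 := by
      intro hd
      have h4 : (p : ℤ) ∣ 2 ^ 2 := by norm_num; exact hd
      have h5 := hpp.dvd_of_dvd_pow h4
      have := Nat.le_of_dvd (by norm_num) (show p ∣ 2 by exact_mod_cast h5)
      omega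
    have n4 : ¬ (p : ℤ) ∣ 4 * h * k ^ 2 := by
      intro hd
      rcases hpp.dvd_or_dvd hd with h4 | h4
      · rcases hpp.dvd_or_dvd h4 with h5 | h5
        · exact n3 h5
        · exact n1 h5
      · exact n2 (hpp.dvd_of_dvd_pow h4)
    apply twoRoots_quadratic hp _ _ _ n1
    cases b
    · simp only [Bool.false_eq_true, if_false]
      intro hd
      apply n4
      have e : (0 : ℤ) ^ 2 - 4 * h * -(k : ℤ) ^ 2 = 4 * h * k ^ 2 := by ring
      rwa [e] at hd
    · simp only [if_true]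
      intro hd
      apply n4
      have e : (0 : ℤ) ^ 2 - 4 * h * (k : ℤ) ^ 2 = -(4 * h * k ^ 2) := by ring
      rwa [e, dvd_neg] at hd
  · -- size
    rintro ⟨k, b⟩ hi t ht
    have hk := (mem_product.1 hi).1
    have hkle : (k : ℤ) ≤ S := by exact_mod_cast hkS k hk
    have hk0 : (0 : ℤ) < k := by exact_mod_cast hK k hk
    have hkt : (k : ℤ) < t := by omega
    have hh' : (1 : ℤ) ≤ h := by exact_mod_cast hh
    have ht0 : 0 < t := by omega
    have q1 : (k : ℤ) ^ 2 < t ^ 2 := by nlinarith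
    have q2 : t ^ 2 ≤ h * t ^ 2 := by nlinarith [sq_nonneg t]
    have q3 : (h : ℤ) * t ^ 2 + t ^ 2 ≤ ((h + 1 : ℤ) * t) ^ 2 := by
      have : ((h + 1 : ℤ) * t) ^ 2 = (h + 1) * ((h + 1) * t ^ 2) := by ring
      rw [this]
      have q4 : (0 : ℤ) ≤ (h + 1) * t ^ 2 := by positivity
      nlinarith
    have q5 : (0 : ℤ) < (k : ℤ) ^ 2 := by positivity
    cases b
    · simp only [hf, Bool.false_eq_true, if_false]
      push_cast
      refine ⟨by intro h0; nlinarith, ?_⟩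
      rw [abs_le]
      constructor <;> nlinarith
    · simp only [hf, if_true]
      push_cast
      refine ⟨by intro h0; nlinarith, ?_⟩
      rw [abs_le]
      constructor <;> nlinarith
  · -- factors
    intro p hp hlt k hk t hd
    have hkpos := hK k hk
    have hkle := hkS k hk
    have hpp : Prime (p : ℤ) := Nat.prime_iff_prime_int.1 hp
    have n1 : ¬ (p : ℤ) ∣ h := by
      intro hd
      have := Nat.le_of_dvd hh (by exact_mod_cast hd)
      omega
    have n2 : ¬ (p : ℤ) ∣ 2 * k ^ 2 := by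
      intro hd
      rcases hpp.dvd_or_dvd hd with h4 | h4
      · have := Nat.le_of_dvd (by norm_num) (show p ∣ 2 by exact_mod_cast h4)
        omega
      · have := Nat.le_of_dvd hkpos (show p ∣ k by exact_mod_cast hpp.dvd_of_dvd_pow h4)
        omega
    have e : Df h k t = h * ((h * t ^ 2 + 0 * t + -(k : ℤ) ^ 2) *
      (h * t ^ 2 + 0 * t + (k : ℤ) ^ 2)) := by
      unfold Df; ring
    rw [e] at hd
    have hd2 := IsCoprime.dvd_of_dvd_mul_left ((isCoprime_of hp n1).pow_left) hd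
    by_cases h3 : (p : ℤ) ∣ (h * t ^ 2 + 0 * t + -(k : ℤ) ^ 2)
    · have h4 : ¬ (p : ℤ) ∣ (h * t ^ 2 + 0 * t + (k : ℤ) ^ 2) := by
        intro h4
        apply n2
        have e2 : (2 : ℤ) * k ^ 2 = (h * t ^ 2 + 0 * t + (k : ℤ) ^ 2) -
          (h * t ^ 2 + 0 * t + -(k : ℤ) ^ 2) := by ring
        rw [e2]; exact dvd_sub h4 h3
      refine ⟨(k, false), mem_product.2 ⟨hk, mem_univ _⟩, ?_⟩
      simp only [hf, Bool.false_eq_true, if_false]
      exact IsCoprime.dvd_of_dvd_mul_right ((isCoprime_of hp h4).pow_left) hd2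
    · refine ⟨(k, true), mem_product.2 ⟨hk, mem_univ _⟩, ?_⟩
      simp only [hf, if_true]
      exact IsCoprime.dvd_of_dvd_mul_left ((isCoprime_of hp h3).pow_left) hd2
  · -- periodicity
    intro k _ n t t' hd
    have e : Df h k t - Df h k t' = (t - t') * (h ^ 3 * (t + t') * (t ^ 2 + t' ^ 2)) := by
      unfold Df; ring
    rw [e]
    exact hd.mul_right _

/-- classes modulo 8 -/
lemma class_even (h t k d : ℕ) (hk : Even k) (hsq : Squarefree d)
    (hd : d + h * k ^ 4 = h ^ 3 * t ^ 4) : d % 8 = h % 8 := by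
  obtain ⟨r, rfl⟩ := hk
  have e1 : (r + r) ^ 4 = 16 * r ^ 4 := by ring
  rw [e1] at hd
  have hn : ∀ x : ℕ, d ≠ 2 ^ 2 * x := by
    intro x hx
    have : (2 : ℕ) * 2 ∣ d := ⟨x, by rw [hx]; ring⟩
    have := hsq 2 this
    simp at this
  -- h and t are odd
  have ht : t % 2 = 1 := by
    by_contra hcon
    have : Even t := by rw [Nat.even_iff]; omega
    obtain ⟨s, rfl⟩ := this
    have e2 : (s + s) ^ 4 = 16 * s ^ 4 := by ring
    rw [e2] at hd
    apply hn (4 * (h ^ 3 * s ^ 4) - 4 * (h * r ^ 4))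
    have : h ^ 3 * (16 * s ^ 4) = 16 * (h ^ 3 * s ^ 4) := by ring
    have h' : h * (16 * r ^ 4) = 16 * (h * r ^ 4) := by ring
    omega
  have hh : h % 2 = 1 := by
    by_contra hcon
    have : Even h := by rw [Nat.even_iff]; omega
    obtain ⟨s, rfl⟩ := this
    apply hn (2 * (s ^ 3 * t ^ 4) - 8 * (s * r ^ 4))
    have : (s + s) ^ 3 * t ^ 4 = 8 * (s ^ 3 * t ^ 4) := by ring
    have h' : (s + s) * (16 * r ^ 4) = 32 * (s * r ^ 4) := by ring
    omega
  have ht4 : t ^ 4 % 8 = 1 := by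
    have : t % 8 = 1 ∨ t % 8 = 3 ∨ t % 8 = 5 ∨ t % 8 = 7 := by omega
    rcases this with h0 | h0 | h0 | h0 <;> simp [Nat.pow_mod, h0]
  have hh3 : h ^ 3 % 8 = h % 8 := by
    have : h % 8 = 1 ∨ h % 8 = 3 ∨ h % 8 = 5 ∨ h % 8 = 7 := by omega
    rcases this with h0 | h0 | h0 | h0 <;> simp [Nat.pow_mod, h0]
  have hm : (h ^ 3 * t ^ 4) % 8 = h % 8 := by
    rw [Nat.mul_mod, ht4, hh3]; simp
  have : h * (16 * r ^ 4) = 8 * (2 * (h * r ^ 4)) := by ring
  omega

lemma class_odd (h t k d : ℕ) (hk : Odd k) (hsq : Squarefree d)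
    (hd : d + h * k ^ 4 = h ^ 3 * t ^ 4) : (d + h) % 8 = 0 := by
  have hn : ∀ x : ℕ, d ≠ 2 ^ 2 * x := by
    intro x hx
    have : (2 : ℕ) * 2 ∣ d := ⟨x, by rw [hx]; ring⟩
    have := hsq 2 this
    simp at this
  have hk2 : k % 2 = 1 := Nat.odd_iff.1 hk
  have hk4 : k ^ 4 % 8 = 1 := by
    have : k % 8 = 1 ∨ k % 8 = 3 ∨ k % 8 = 5 ∨ k % 8 = 7 := by omega
    rcases this with h0 | h0 | h0 | h0 <;> simp [Nat.pow_mod, h0]
  have hhk : (h * k ^ 4) % 8 = h % 8 := by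
    rw [Nat.mul_mod, hk4]; simp
  rcases Nat.mod_two_eq_zero_or_one h with hh | hh
  · obtain ⟨s, rfl⟩ := Nat.dvd_of_mod_eq_zero hh
    have : (2 * s) ^ 3 * t ^ 4 = 8 * (s ^ 3 * t ^ 4) := by ring
    omega
  · rcases Nat.mod_two_eq_zero_or_one t with ht | ht
    · obtain ⟨s, rfl⟩ := Nat.dvd_of_mod_eq_zero ht
      have : h ^ 3 * (2 * s) ^ 4 = 8 * (2 * h ^ 3 * s ^ 4) := by ring
      omega
    · exfalso
      have ht4 : t ^ 4 % 8 = 1 := by
        have : t % 8 = 1 ∨ t % 8 = 3 ∨ t % 8 = 5 ∨ t % 8 = 7 := by omega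
        rcases this with h0 | h0 | h0 | h0 <;> simp [Nat.pow_mod, h0]
      have hh3 : h ^ 3 % 8 = h % 8 := by
        have : h % 8 = 1 ∨ h % 8 = 3 ∨ h % 8 = 5 ∨ h % 8 = 7 := by omega
        rcases this with h0 | h0 | h0 | h0 <;> simp [Nat.pow_mod, h0]
      have hm : (h ^ 3 * t ^ 4) % 8 = h % 8 := by
        rw [Nat.mul_mod, ht4, hh3]; simp
      apply hn (d / 4)
      omega

/-- admissible sets in any class -/
lemma clusters (h m : ℕ) (hh : Squarefree h) (hm : 0 < m) :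
    ∃ M : ℕ, 0 < M ∧ (Odd h → Even M) ∧ (Even h → Odd M) ∧ ∀ p : ℕ, p.Prime → ∃ t : ℕ,
      ∀ k ∈ (range m).image (fun l => M * (1 + h * l)), ¬ (p : ℤ) ^ 2 ∣ Df h k t := by
  have hh0 : 0 < h := Nat.pos_of_ne_zero hh.ne_zero
  set S : Finset ℕ := (range (h * m + 2)).filter (fun p => p.Prime ∧ ¬ p ∣ h) with hS
  have hSp : ∀ p ∈ S, p.Prime := fun p hp => (mem_filter.1 hp).2.1
  have hMp : ∀ p : ℕ, p.Prime → p ∣ ∏ q ∈ S, q → p ∈ S := by
    intro p hp hd
    obtain ⟨q, hq, hd⟩ := (hp.prime.dvd_finset_prod_iff _).1 hd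
    have := (Nat.prime_dvd_prime_iff_eq hp (hSp q hq)).1 hd
    rwa [this]
  refine ⟨∏ p ∈ S, p, Finset.prod_pos fun p hp => (hSp p hp).pos, ?_, ?_, ?_⟩
  · intro hodd
    have h2 : 2 ∈ S := by
      refine mem_filter.2 ⟨mem_range.2 ?_, Nat.prime_two, ?_⟩
      · nlinarith
      · intro hd
        have h3 := Nat.odd_iff.1 hodd
        omega
    exact even_iff_two_dvd.2 (Finset.dvd_prod_of_mem _ h2)
  · intro heven
    rw [← Nat.not_even_iff_odd]
    intro hcon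
    have := hMp 2 Nat.prime_two hcon.two_dvd
    exact (mem_filter.1 this).2.2 heven.two_dvd
  · intro p hp
    have hpp : Prime (p : ℤ) := Nat.prime_iff_prime_int.1 hp
    by_cases hcase : ¬ p ∣ h ∧ p < h * m + 2
    · have hpS : p ∈ S := mem_filter.2 ⟨mem_range.2 hcase.2, hp, hcase.1⟩
      refine ⟨1, ?_⟩
      intro k hk hd
      obtain ⟨l, _, rfl⟩ := mem_image.1 hk
      have h1 : (p : ℤ) ∣ Df h ((∏ q ∈ S, q) * (1 + h * l)) (1 : ℕ) :=
        (dvd_pow_self _ two_ne_zero).trans hd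
      have h2 : (p : ℤ) ∣ (((∏ q ∈ S, q) * (1 + h * l) : ℕ) : ℤ) := by
        exact_mod_cast (Finset.dvd_prod_of_mem (fun q => q) hpS).mul_right _
      have h3 : (p : ℤ) ∣ (h : ℤ) ^ 3 := by
        have e : (h : ℤ) ^ 3 = Df h ((∏ q ∈ S, q) * (1 + h * l)) (1 : ℕ) +
          h * ((((∏ q ∈ S, q) * (1 + h * l) : ℕ) : ℤ)) ^ 4 := by
          unfold Df; push_cast; ring
        rw [e]
        exact dvd_add h1 ((h2.pow (by norm_num : (4 : ℕ) ≠ 0)).mul_left _)
      exact hcase.1 (by exact_mod_cast hpp.dvd_of_dvd_pow h3)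
    · refine ⟨0, ?_⟩
      intro k hk hd
      obtain ⟨l, hl, rfl⟩ := mem_image.1 hk
      have hl' := mem_range.1 hl
      have hnM : ¬ p ∣ ∏ q ∈ S, q := by
        intro hcon
        have := mem_filter.1 (hMp p hp hcon)
        exact hcase ⟨this.2.2, mem_range.1 this.1⟩
      have hnl : ¬ p ∣ 1 + h * l := by
        intro hcon
        by_cases hph : p ∣ h
        · have h1 : p ∣ 1 := (Nat.dvd_add_left (hph.mul_right l)).1 hcon
          exact hp.one_lt.ne' (Nat.dvd_one.1 h1)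
        · have h1 : ¬ p < h * m + 2 := fun h1 => hcase ⟨hph, h1⟩
          have h2 := Nat.le_of_dvd (by positivity) hcon
          have h3 : h * l ≤ h * m := Nat.mul_le_mul_left _ hl'.le
          omega
      have hnk : ¬ (p : ℤ) ∣ (((∏ q ∈ S, q) * (1 + h * l) : ℕ) : ℤ) := by
        intro hcon
        have h1 : p ∣ (∏ q ∈ S, q) * (1 + h * l) := by exact_mod_cast hcon
        rcases hp.dvd_mul.1 h1 with h2 | h2
        · exact hnM h2
        · exact hnl h2
      have e : Df h ((∏ q ∈ S, q) * (1 + h * l)) (0 : ℕ) =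
          -(h * ((((∏ q ∈ S, q) * (1 + h * l) : ℕ) : ℤ)) ^ 4) := by
        unfold Df; push_cast; ring
      rw [e, dvd_neg] at hd
      have h1 : (p : ℤ) ^ 2 ∣ h := by
        refine IsCoprime.dvd_of_dvd_mul_right ?_ hd
        exact (isCoprime_of hp hnk).pow
      have h2 : p * p ∣ h := by
        rw [← pow_two]; exact_mod_cast h1
      have := hh p h2
      exact hp.one_lt.ne' (Nat.isUnit_iff.1 this)

end Pool.Agent.TH4.CT
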