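import Pool.Agent.TH4.CT.Unif
import Pool.Agent.TH4.CT.Cong

set_option autoImplicit false

/-!
# Clusters of squarefree congruent numbers in every class

The numbers `g (t⁴ - g² k⁴)`, `k = M l`, `t ≡ 1 (mod M)`, are congruent and `≡ g (mod M)`.
-/

namespace Pool.Agent.TH4.CT

open Finset Filter
open scoped Classical

/-- the family -/
def DA (g M l : ℕ) (t : ℤ) : ℤ := g * (t ^ 4 - g ^ 2 * (M * l) ^ 4)

lemma cong_A (g t k d : ℕ) (hg : 0 < g) (ht : 0 < t) (hk : 0 < k) (hd : 0 < d)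
    (hdk : (d : ℤ) = g * (t ^ 4 - g ^ 2 * k ^ 4)) : IsCong d := by
  have hg' : (0 : ℚ) < g := by exact_mod_cast hg
  have ht' : (0 : ℚ) < t := by exact_mod_cast ht
  have hk' : (0 : ℚ) < k := by exact_mod_cast hk
  have hd' : (0 : ℚ) < d := by exact_mod_cast hd
  have e : (d : ℚ) = g * (((t : ℚ) ^ 2) ^ 2 - (g * k ^ 2) ^ 2) := by
    have : (d : ℚ) = g * (t ^ 4 - g ^ 2 * k ^ 4) := by exact_mod_cast hdk
    linear_combination this
  have hpos : (0 : ℚ) < ((t : ℚ) ^ 2) ^ 2 - (g * k ^ 2) ^ 2 := by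
    by_contra hn
    push Not at hn
    have := mul_nonpos_of_nonneg_of_nonpos hg'.le hn
    linarith
  refine ⟨(((t : ℚ) ^ 2) ^ 2 - (g * k ^ 2) ^ 2) / (t * k), 2 * g * t * k,
    (((t : ℚ) ^ 2) ^ 2 + (g * k ^ 2) ^ 2) / (t * k), by positivity, by positivity, by positivity,
    ?_, ?_⟩
  · field_simp
    ring
  · rw [e]
    field_simp

lemma DA_pos (g M l m t : ℕ) (hg : 0 < g) (hl : l ∈ Finset.Icc 1 m) (ht : g * (M * m) < t) :
    (g : ℤ) ^ 2 * (M * l) ^ 4 < (t : ℤ) ^ 4 := by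
  obtain ⟨_, h2⟩ := mem_Icc.1 hl
  have h3 : g * (M * l) < t := lt_of_le_of_lt (by gcongr) ht
  have h4 : (g * (M * l)) ^ 4 < t ^ 4 := Nat.pow_lt_pow_left h3 (by norm_num)
  have h5 : g ^ 2 * (M * l) ^ 4 ≤ (g * (M * l)) ^ 4 := by
    rw [mul_pow g]
    exact Nat.mul_le_mul_right _ (Nat.pow_le_pow_right hg (by norm_num))
  exact_mod_cast lt_of_le_of_lt h5 h4

lemma natAbs_DA (g M l m t : ℕ) (hg : 0 < g) (hl : l ∈ Finset.Icc 1 m) (ht : g * (M * m) < t) :
    ((DA g M l t).natAbs : ℤ) = g * ((t : ℤ) ^ 4 - g ^ 2 * (M * l) ^ 4) := by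
  have h := DA_pos g M l m t hg hl ht
  have hg' : (0 : ℤ) < g := by exact_mod_cast hg
  rw [Int.natAbs_of_nonneg]
  · rfl
  · unfold DA
    exact (mul_pos hg' (sub_pos.2 h)).le

theorem half_A (g M P m : ℕ) (hg : Squarefree g) (hM : 0 < M) (hm : 0 < m)
    (hP : 80 + g ≤ P) (hMP : ∀ p : ℕ, p.Prime → P < p → ¬ p ∣ M)
    (hMd : ∀ p : ℕ, p.Prime → p ≤ P → p ∣ M) :
    ∀ᶠ T : ℕ in atTop, (1 / (2 * M) : ℝ) * T ≤
      (((Ioc (0 : ℤ) T).filter (fun t : ℤ => ((g * (M * m) : ℕ) : ℤ) < t ∧ ((M : ℤ) ∣ t - 1 ∧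
        m ≤ 2 * ((Finset.Icc 1 m).filter (fun l => Squarefree (DA g M l t))).card))).card : ℝ) := by
  have hg0 : 0 < g := Nat.pos_of_ne_zero hg.ne_zero
  apply half (ι := Bool) M P (g * (M * m)) 2 m (DA g M)
    (fun i l t => 1 * t ^ 2 + 0 * t + (if i then (g : ℤ) * (M * l) ^ 2 else
    - ((g : ℤ) * (M * l) ^ 2))) hM hm
    (by rw [Fintype.card_bool]; omega) hMP
  · intro p hp hle l _ t ht
    unfold DA
    apply small_prime (Int.squarefree_natCast.2 hg) hp (hMd p hp hle)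
    have e : t ^ 4 - (g : ℤ) ^ 2 * (M * l) ^ 4 - 1 = (t - 1) * ((t + 1) * (t ^ 2 + 1)) -
      M * (g ^ 2 * M ^ 3 * l ^ 4) := by ring
    rw [e]
    exact dvd_sub (ht.mul_right _) (dvd_mul_right _ _)
  · intro p hp hlt l hl hpl i
    have hpp : Prime (p : ℤ) := Nat.prime_iff_prime_int.1 hp
    have n1 : ¬ (p : ℤ) ∣ g := by
      intro hd
      have := Nat.le_of_dvd hg0 (by exact_mod_cast hd)
      omega
    have n2 : ¬ (p : ℤ) ∣ (M : ℤ) * l := by
      intro hd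
      rcases hpp.dvd_or_dvd hd with h4 | h4
      · exact hMP p hp hlt (by exact_mod_cast h4)
      · exact hpl (by exact_mod_cast h4)
    have n3 : ¬ (p : ℤ) ∣ 4 := by
      intro hd
      have h4 : (p : ℤ) ∣ 2 ^ 2 := by norm_num; exact hd
      have h5 := hpp.dvd_of_dvd_pow h4
      have := Nat.le_of_dvd (by norm_num) (show p ∣ 2 by exact_mod_cast h5)
      omega
    have n4 : ¬ (p : ℤ) ∣ 4 * (g * (M * l) ^ 2) := by
      intro hd
      rcases hpp.dvd_or_dvd hd with h4 | h4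
      · exact n3 h4
      · rcases hpp.dvd_or_dvd h4 with h5 | h5
        · exact n1 h5
        · exact n2 (hpp.dvd_of_dvd_pow h5)
    apply twoRoots_quadratic hp _ _ _ (fun h => hpp.not_isUnit (isUnit_of_dvd_one h))
    cases i
    · simp only [Bool.false_eq_true, if_false]
      intro hd
      apply n4
      have e : (0 : ℤ) ^ 2 - 4 * 1 * -(g * (M * l) ^ 2) = 4 * (g * (M * l) ^ 2) := by ring
      rwa [e] at hd
    · simp only [if_true]
      intro hd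
      apply n4
      have e : (0 : ℤ) ^ 2 - 4 * 1 * (g * (M * l) ^ 2) = -(4 * (g * (M * l) ^ 2)) := by ring
      rwa [e, dvd_neg] at hd
  · intro p hp hlt l hl hpl t hd
    have hpp : Prime (p : ℤ) := Nat.prime_iff_prime_int.1 hp
    have n1 : ¬ (p : ℤ) ∣ g := by
      intro hd
      have := Nat.le_of_dvd hg0 (by exact_mod_cast hd)
      omega
    have n2 : ¬ (p : ℤ) ∣ 2 * (g * (M * l) ^ 2) := by
      intro hd
      rcases hpp.dvd_or_dvd hd with h4 | h4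
      · have := Nat.le_of_dvd (by norm_num) (show p ∣ 2 by exact_mod_cast h4)
        omega
      · rcases hpp.dvd_or_dvd h4 with h5 | h5
        · exact n1 h5
        · rcases hpp.dvd_or_dvd (hpp.dvd_of_dvd_pow h5) with h6 | h6
          · exact hMP p hp hlt (by exact_mod_cast h6)
          · exact hpl (by exact_mod_cast h6)
    have e : DA g M l t = g * ((1 * t ^ 2 + 0 * t + -(g * (M * l) ^ 2)) *
      (1 * t ^ 2 + 0 * t + (g * (M * l) ^ 2))) := by
      unfold DA; ring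
    rw [e] at hd
    have hd2 := IsCoprime.dvd_of_dvd_mul_left ((isCoprime_of hp n1).pow_left) hd
    by_cases h3 : (p : ℤ) ∣ (1 * t ^ 2 + 0 * t + -((g : ℤ) * (M * l) ^ 2))
    · have h4 : ¬ (p : ℤ) ∣ (1 * t ^ 2 + 0 * t + ((g : ℤ) * (M * l) ^ 2)) := by
        intro h4
        apply n2
        have e2 : 2 * ((g : ℤ) * (M * l) ^ 2) = (1 * t ^ 2 + 0 * t + ((g : ℤ) * (M * l) ^ 2)) -
          (1 * t ^ 2 + 0 * t + -((g : ℤ) * (M * l) ^ 2)) := by ring
        rw [e2]; exact dvd_sub h4 h3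
      refine ⟨false, ?_⟩
      simp only [Bool.false_eq_true, if_false]
      exact IsCoprime.dvd_of_dvd_mul_right ((isCoprime_of hp h4).pow_left) hd2
    · refine ⟨true, ?_⟩
      simp only [if_true]
      exact IsCoprime.dvd_of_dvd_mul_left ((isCoprime_of hp h3).pow_left) hd2
  · intro p hp hlt l hl hpl t hd
    have hpp : Prime (p : ℤ) := Nat.prime_iff_prime_int.1 hp
    have n1 : ¬ (p : ℤ) ∣ g := by
      intro hd
      have := Nat.le_of_dvd hg0 (by exact_mod_cast hd)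
      omega
    have h1 : (p : ℤ) ∣ DA g M l t := (dvd_pow_self _ two_ne_zero).trans hd
    have h2 : (p : ℤ) ∣ (l : ℤ) := by exact_mod_cast hpl
    have h3 : (p : ℤ) ∣ g * t ^ 4 := by
      have e : (g : ℤ) * t ^ 4 = DA g M l t + l * (g ^ 3 * M ^ 4 * l ^ 3) := by
        unfold DA; ring
      rw [e]
      exact dvd_add h1 (h2.mul_right _)
    rcases hpp.dvd_or_dvd h3 with h4 | h4
    · exact absurd h4 n1
    · exact hpp.dvd_of_dvd_pow h4
  · intro l hl i t ht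
    obtain ⟨hl1, hl2⟩ := mem_Icc.1 hl
    have hk : ((g : ℤ) * (M * l)) < t := by
      have h1 : g * (M * l) ≤ g * (M * m) := by gcongr
      have h2 : ((g * (M * l) : ℕ) : ℤ) ≤ ((g * (M * m) : ℕ) : ℤ) := by exact_mod_cast h1
      push_cast at h2 ht ⊢
      linarith
    have hMl : (0 : ℤ) < (M : ℤ) * l := by
      have : 0 < M * l := Nat.mul_pos hM hl1
      exact_mod_cast this
    have hgp : (1 : ℤ) ≤ g := by exact_mod_cast hg0
    have hgk : (0 : ℤ) < (g : ℤ) * (M * l) := by positivity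
    have ht0 : (0 : ℤ) < t := by linarith
    have q1 : ((g : ℤ) * (M * l)) ^ 2 < t ^ 2 := by
      apply pow_lt_pow_left₀ hk hgk.le two_ne_zero
    have q2 : (g : ℤ) * (M * l) ^ 2 ≤ ((g : ℤ) * (M * l)) ^ 2 := by
      have : ((g : ℤ) * (M * l)) ^ 2 = g * (g * (M * l) ^ 2) := by ring
      rw [this]
      have h3 : (0 : ℤ) ≤ g * (M * l) ^ 2 := by positivity
      nlinarith
    have q3 : (0 : ℤ) < (g : ℤ) * (M * l) ^ 2 := by positivity
    have q4 : (((2 : ℕ) : ℤ) * t) ^ 2 = 4 * t ^ 2 := by push_cast; ring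
    rw [q4]
    cases i
    · simp only [Bool.false_eq_true, if_false]
      refine ⟨by intro h0; nlinarith, ?_⟩
      rw [abs_le]
      constructor <;> nlinarith
    · simp only [if_true]
      refine ⟨by intro h0; nlinarith, ?_⟩
      rw [abs_le]
      constructor <;> nlinarith

/-- **Clusters of squarefree congruent numbers in the class of `g` modulo `M₀`.** -/
theorem cong_clusters (g M₀ : ℕ) (hg : Squarefree g) (hM₀ : 0 < M₀) :
    ∃ C : ℕ, ∃ c : ℝ, 0 < c ∧ ∀ m : ℕ, ∀ᶠ X : ℕ in atTop, c * (X : ℝ) ^ (1 / (4 : ℝ)) ≤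
      ({n : ℕ | 0 < n ∧ n ≤ X ∧ m ≤ {d : ℕ | |(d : ℤ) - n| ≤ ((C * m ^ 4 : ℕ) : ℤ) ∧
        (Squarefree d ∧ d ≡ g [MOD M₀] ∧ IsCong d)}.ncard}.ncard : ℝ) := by
  have hg0 : 0 < g := Nat.pos_of_ne_zero hg.ne_zero
  set P : ℕ := 80 + g + M₀ with hP
  set M : ℕ := MQ M₀ P with hM
  have hMpos : 0 < M := MQ_pos M₀ P hM₀
  have h := clusters_of g 4 4 (g ^ 3 * M ^ 4) M hg0 (by norm_num) hMpos (DA g M)
    (fun m => g * (M * m)) (fun d => Squarefree d ∧ d ≡ g [MOD M₀] ∧ IsCong d)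
    (fun m hm => half_A g M P m hg hMpos hm (by omega)
      (fun p hp hlt => not_dvd_MQ hM₀ (by omega) hp hlt) (fun p hp hle => dvd_MQ hp hle))
    ?_ ?_ ?_
  · obtain ⟨c, hc, h1⟩ := h
    refine ⟨g ^ 3 * M ^ 4 * 2 ^ 4, c, hc, ?_⟩
    intro m
    have h2 := h1 m
    push_cast at h2 ⊢
    exact h2
  · -- the property
    intro m l hl t hlt hMt hsq
    have hab := natAbs_DA g M l m t hg0 hl hlt
    obtain ⟨hl1, hl2⟩ := mem_Icc.1 hl
    have hsq2 : Squarefree (DA g M l t).natAbs := Int.squarefree_natAbs.2 hsq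
    refine ⟨hsq2, ?_, ?_⟩
    · rw [← Int.natCast_modEq_iff, hab]
      apply Int.ModEq.symm
      rw [Int.modEq_iff_dvd]
      have h1 : (M₀ : ℤ) ∣ (M : ℤ) := by exact_mod_cast M0_dvd_MQ M₀ P
      apply h1.trans
      have e : (g : ℤ) * ((t : ℤ) ^ 4 - g ^ 2 * (M * l) ^ 4) - g =
        ((t : ℤ) - 1) * (g * ((t + 1) * (t ^ 2 + 1))) - M * (g ^ 3 * M ^ 3 * l ^ 4) := by ring
      rw [e]
      exact dvd_sub (hMt.mul_right _) (dvd_mul_right _ _)
    · apply cong_A g t (M * l) _ hg0 (by omega) (Nat.mul_pos hMpos hl1)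
        (Nat.pos_of_ne_zero hsq2.ne_zero)
      rw [hab]
      push_cast
      ring
  · -- near
    intro m l hl t hlt
    have hab := natAbs_DA g M l m t hg0 hl hlt
    obtain ⟨hl1, hl2⟩ := mem_Icc.1 hl
    rw [hab]
    have e : (g : ℤ) * ((t : ℤ) ^ 4 - g ^ 2 * (M * l) ^ 4) - ((g * t ^ 4 : ℕ) : ℤ) =
      -((g ^ 3 * M ^ 4 * l ^ 4 : ℕ) : ℤ) := by push_cast; ring
    rw [e, abs_neg, abs_of_nonneg (Int.natCast_nonneg _)]
    have : g ^ 3 * M ^ 4 * l ^ 4 ≤ g ^ 3 * M ^ 4 * m ^ 4 := by gcongr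
    exact_mod_cast this
  · -- injective
    intro m l hl l' hl' t hlt he
    have h1 := natAbs_DA g M l m t hg0 hl hlt
    have h2 := natAbs_DA g M l' m t hg0 hl' hlt
    rw [he, h2] at h1
    have h3 : (g : ℤ) ^ 3 * M ^ 4 * l ^ 4 = (g : ℤ) ^ 3 * M ^ 4 * l' ^ 4 := by linarith
    have h4 : g ^ 3 * M ^ 4 * l ^ 4 = g ^ 3 * M ^ 4 * l' ^ 4 := by exact_mod_cast h3
    have h5 := Nat.eq_of_mul_eq_mul_left (by positivity) h4
    exact Nat.pow_left_injective (by norm_num : (4 : ℕ) ≠ 0) h5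

end Pool.Agent.TH4.CT
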