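import Pool.Agent.TH4.CT.Transfer

set_option autoImplicit false

/-!
# Half of a long tuple is squarefree for a positive proportion

General version: the proportion `1 / (2 M)` does not depend on the length `m` of the tuple.
-/

namespace Pool.Agent.TH4.CT

open Finset Filter
open scoped Classical

lemma inv_sum (P N : ℕ) (hP : 0 < P) :
    ∑ p ∈ (Finset.Ioc P N).filter Nat.Prime, ((p : ℝ) ^ 2)⁻¹ ≤ (P : ℝ)⁻¹ := by
  have h8 : ∑ p ∈ (Finset.Ioc P N).filter Nat.Prime, ((p : ℝ) ^ 2)⁻¹ ≤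
      ∑ p ∈ Finset.Ioc P (max P N), ((p : ℝ) ^ 2)⁻¹ := by
    apply sum_le_sum_of_subset_of_nonneg
    · intro p hp
      obtain ⟨hp1, hp2⟩ := mem_filter.1 hp
      obtain ⟨ha, hb⟩ := mem_Ioc.1 hp1
      exact mem_Ioc.2 ⟨ha, hb.trans (le_max_right _ _)⟩
    · intro p _ _
      positivity
  refine h8.trans ((sum_Ioc_inv_sq_le_sub (by omega) (le_max_left _ _)).trans ?_)
  have : (0 : ℝ) ≤ ((max P N : ℕ) : ℝ)⁻¹ := by positivity
  linarith

/-- the bad `t` for one index -/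
lemma bad_one {ι : Type} [Fintype ι] (M P N0 C T l m : ℕ) (D : ℤ → ℤ) (f : ι → ℤ → ℤ)
    (hM : 0 < M) (hP : 0 < P) (hl1 : 1 ≤ l) (hlm : l ≤ m)
    (hMP : ∀ p : ℕ, p.Prime → P < p → ¬ p ∣ M)
    (hsmall : ∀ p : ℕ, p.Prime → p ≤ P → ∀ t : ℤ, (M : ℤ) ∣ t - 1 → ¬ (p : ℤ) ^ 2 ∣ D t)
    (hroot : ∀ p : ℕ, p.Prime → P < p → ¬ p ∣ l → ∀ i, TwoRoots p (f i))
    (hfac : ∀ p : ℕ, p.Prime → P < p → ¬ p ∣ l → ∀ t : ℤ, (p : ℤ) ^ 2 ∣ D t →
      ∃ i, (p : ℤ) ^ 2 ∣ f i t)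
    (hbig : ∀ p : ℕ, p.Prime → P < p → p ∣ l → ∀ t : ℤ, (p : ℤ) ^ 2 ∣ D t → (p : ℤ) ∣ t)
    (hsize : ∀ i, ∀ t : ℤ, (N0 : ℤ) < t → f i t ≠ 0 ∧ |f i t| ≤ ((C : ℤ) * t) ^ 2) :
    (((((Ioc (0 : ℤ) T).filter (fun t => (M : ℤ) ∣ t - 1)).filter
      (fun t : ℤ => (N0 : ℤ) < t)).filter (fun t => ¬ Squarefree (D t))).card : ℝ) ≤
      (2 * Fintype.card ι * (T / M) * (P : ℝ)⁻¹ + 2 * Fintype.card ι * Nat.primeCounting (C * T)) +
        ∑ p ∈ (Finset.Ioc P m).filter Nat.Prime, if p ∣ l then ((T : ℝ) / (M * p) + 1) else 0 := by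
  set R : Finset ℕ := (Finset.Ioc P (C * T)).filter Nat.Prime with hR
  set R2 : Finset ℕ := (Finset.Ioc P m).filter Nat.Prime with hR2
  have hbad : (((Ioc (0 : ℤ) T).filter (fun t => (M : ℤ) ∣ t - 1)).filter
      (fun t : ℤ => (N0 : ℤ) < t)).filter (fun t => ¬ Squarefree (D t)) ⊆
      ((R.filter (fun p => ¬ p ∣ l)).biUnion (fun p => (univ : Finset ι).biUnion (fun i =>
        (Ioc (0 : ℤ) T).filter (fun t => (M : ℤ) ∣ t - 1 ∧ (p : ℤ) ^ 2 ∣ f i t)))) ∪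
      (R2.filter (fun p => p ∣ l)).biUnion (fun p =>
        (Ioc (0 : ℤ) T).filter (fun t => (M : ℤ) ∣ t - 1 ∧ (p : ℤ) ∣ t - 0)) := by
    intro t ht
    obtain ⟨ht1, hns⟩ := mem_filter.1 ht
    obtain ⟨ht2, htN⟩ := mem_filter.1 ht1
    obtain ⟨hta, htb⟩ := mem_filter.1 ht2
    obtain ⟨ht0, htT⟩ := mem_Ioc.1 hta
    rw [← Int.squarefree_natAbs, Nat.squarefree_iff_prime_squarefree] at hns
    push Not at hns
    obtain ⟨p, hp, hpd⟩ := hns
    have hd : (p : ℤ) ^ 2 ∣ D t := by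
      rw [← Int.natCast_dvd] at hpd
      push_cast at hpd
      rwa [← pow_two] at hpd
    have hPp : P < p := by
      by_contra hle
      exact hsmall p hp (not_lt.1 hle) t htb hd
    by_cases hpk : p ∣ l
    · apply mem_union_right
      have h2 : p ≤ m := (Nat.le_of_dvd hl1 hpk).trans hlm
      rw [mem_biUnion]
      refine ⟨p, mem_filter.2 ⟨mem_filter.2 ⟨mem_Ioc.2 ⟨hPp, h2⟩, hp⟩, hpk⟩,
        mem_filter.2 ⟨hta, htb, ?_⟩⟩
      rw [sub_zero]
      exact hbig p hp hPp hpk t hd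
    · apply mem_union_left
      obtain ⟨i, hi⟩ := hfac p hp hPp hpk t hd
      obtain ⟨hne, hle⟩ := hsize i t htN
      have hpCT : p ≤ C * T := by
        have h1 : (p : ℤ) ^ 2 ≤ ((C : ℤ) * t) ^ 2 :=
          (Int.le_of_dvd (abs_pos.2 hne) ((dvd_abs _ _).2 hi)).trans hle
        have h2 : (p : ℤ) ≤ (C : ℤ) * t := by
          by_contra hlt
          push Not at hlt
          have h3 : 0 ≤ (C : ℤ) * t := by positivity
          nlinarith
        have h3 : (C : ℤ) * t ≤ (C : ℤ) * T := by gcongr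
        exact_mod_cast h2.trans h3
      rw [mem_biUnion]
      refine ⟨p, mem_filter.2 ⟨mem_filter.2 ⟨mem_Ioc.2 ⟨hPp, hpCT⟩, hp⟩, hpk⟩, ?_⟩
      rw [mem_biUnion]
      exact ⟨i, mem_univ _, mem_filter.2 ⟨hta, htb, hi⟩⟩
  have hπ : (R.card : ℝ) ≤ Nat.primeCounting (C * T) := by
    have : R.card ≤ Nat.primeCounting (C * T) := by
      rw [← Nat.primesLE_card_eq_primeCounting]
      apply card_le_card
      intro p hp
      obtain ⟨hp1, hp2⟩ := mem_filter.1 hp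
      rw [Nat.mem_primesLE]
      exact ⟨(mem_Ioc.1 hp1).2, hp2⟩
    exact_mod_cast this
  have h1 := (card_le_card hbad).trans (card_union_le _ _)
  have h2 : (((R.filter (fun p => ¬ p ∣ l)).biUnion (fun p => (univ : Finset ι).biUnion
      (fun i => (Ioc (0 : ℤ) T).filter (fun t => (M : ℤ) ∣ t - 1 ∧
        (p : ℤ) ^ 2 ∣ f i t)))).card : ℝ) ≤
      2 * Fintype.card ι * (T / M) * (P : ℝ)⁻¹ + 2 * Fintype.card ι * Nat.primeCounting (C * T) := by
    have h3 : (((R.filter (fun p => ¬ p ∣ l)).biUnion (fun p => (univ : Finset ι).biUnion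
      (fun i => (Ioc (0 : ℤ) T).filter (fun t => (M : ℤ) ∣ t - 1 ∧
        (p : ℤ) ^ 2 ∣ f i t)))).card : ℝ) ≤
        ∑ p ∈ R.filter (fun p => ¬ p ∣ l), (2 * Fintype.card ι * (T / M) * ((p : ℝ) ^ 2)⁻¹ +
          2 * Fintype.card ι) := by
      refine le_trans (Nat.cast_le.2 card_biUnion_le) ?_
      push_cast
      apply sum_le_sum
      intro p hp
      obtain ⟨hp1, hpk⟩ := mem_filter.1 hp
      obtain ⟨hp2, hp3⟩ := mem_filter.1 hp1
      have hPp := (mem_Ioc.1 hp2).1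
      have hcop : Nat.Coprime M (p ^ 2) :=
        (((Nat.Prime.coprime_iff_not_dvd hp3).2 (hMP p hp3 hPp)).pow_left 2).symm
      refine le_trans (Nat.cast_le.2 card_biUnion_le) ?_
      push_cast
      have h5 : ∑ i : ι, (((Ioc (0 : ℤ) T).filter (fun t => (M : ℤ) ∣ t - 1 ∧
        (p : ℤ) ^ 2 ∣ f i t)).card : ℝ) ≤ ∑ _i : ι, 2 * (T / (M * (p : ℝ) ^ 2) + 1) :=
        sum_le_sum fun i _ => bad_count hp3 (hroot p hp3 hPp hpk i) T M hM hcop 1
      refine h5.trans (le_of_eq ?_)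
      rw [sum_const, card_univ, nsmul_eq_mul]
      have h6 : (p : ℝ) ≠ 0 := by exact_mod_cast hp3.ne_zero
      have h7 : (M : ℝ) ≠ 0 := by exact_mod_cast hM.ne'
      field_simp
    refine h3.trans ?_
    have h6 : ∑ p ∈ R.filter (fun p => ¬ p ∣ l), (2 * Fintype.card ι * (T / M) * ((p : ℝ) ^ 2)⁻¹ +
          2 * Fintype.card ι) ≤
        ∑ p ∈ R, (2 * Fintype.card ι * (T / M) * ((p : ℝ) ^ 2)⁻¹ + 2 * Fintype.card ι) :=
      sum_le_sum_of_subset_of_nonneg (filter_subset _ _) (fun _ _ _ => by positivity)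
    refine h6.trans ?_
    rw [sum_add_distrib, ← mul_sum, sum_const, nsmul_eq_mul]
    have h7 := inv_sum P (C * T) hP
    have h8 : 2 * (Fintype.card ι : ℝ) * ((T : ℝ) / M) * ∑ p ∈ R, ((p : ℝ) ^ 2)⁻¹ ≤
        2 * Fintype.card ι * (T / M) * (P : ℝ)⁻¹ := by
      gcongr
    have h9 : (R.card : ℝ) * (2 * Fintype.card ι) ≤
        2 * Fintype.card ι * Nat.primeCounting (C * T) := by
      have h10 : (0 : ℝ) ≤ 2 * Fintype.card ι := by positivity
      nlinarith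
    linarith
  have h3 : (((R2.filter (fun p => p ∣ l)).biUnion (fun p =>
      (Ioc (0 : ℤ) T).filter (fun t => (M : ℤ) ∣ t - 1 ∧ (p : ℤ) ∣ t - 0))).card : ℝ) ≤
      ∑ p ∈ R2, if p ∣ l then ((T : ℝ) / (M * p) + 1) else 0 := by
    rw [← sum_filter]
    refine le_trans (Nat.cast_le.2 card_biUnion_le) ?_
    push_cast
    apply sum_le_sum
    intro p hp
    obtain ⟨hp1, _⟩ := mem_filter.1 hp
    obtain ⟨hp2, hp3⟩ := mem_filter.1 hp1
    have hPp := (mem_Ioc.1 hp2).1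
    have hcop : Nat.Coprime M p :=
      ((Nat.Prime.coprime_iff_not_dvd hp3).2 (hMP p hp3 hPp)).symm
    exact ap_two T M p hM hp3.pos hcop 1 0
  have h4 : (((((Ioc (0 : ℤ) T).filter (fun t => (M : ℤ) ∣ t - 1)).filter
      (fun t : ℤ => (N0 : ℤ) < t)).filter (fun t => ¬ Squarefree (D t))).card : ℝ) ≤
    (((R.filter (fun p => ¬ p ∣ l)).biUnion (fun p => (univ : Finset ι).biUnion
        (fun i => (Ioc (0 : ℤ) T).filter (fun t => (M : ℤ) ∣ t - 1 ∧
          (p : ℤ) ^ 2 ∣ f i t)))).card : ℝ) +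
      ((R2.filter (fun p => p ∣ l)).biUnion (fun p =>
        (Ioc (0 : ℤ) T).filter (fun t => (M : ℤ) ∣ t - 1 ∧ (p : ℤ) ∣ t - 0))).card := by
    exact_mod_cast h1
  linarith

/-- the second kind of bad pairs, on average -/
lemma second_sum (M P T m : ℕ) (hP : 0 < P) :
    ∑ l ∈ Finset.Icc 1 m, ∑ p ∈ (Finset.Ioc P m).filter Nat.Prime,
      (if p ∣ l then ((T : ℝ) / (M * p) + 1) else 0) ≤ m * (T / M) * (P : ℝ)⁻¹ + m * m := by
  rw [sum_comm]
  have h1 : ∀ p ∈ (Finset.Ioc P m).filter Nat.Prime, ∑ l ∈ Finset.Icc 1 m,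
      (if p ∣ l then ((T : ℝ) / (M * p) + 1) else 0) ≤ m * (T / M) * ((p : ℝ) ^ 2)⁻¹ + m := by
    intro p hp
    obtain ⟨hp2, hp3⟩ := mem_filter.1 hp
    have hp0 : (0 : ℝ) < p := by exact_mod_cast hp3.pos
    have hp1 : (1 : ℝ) ≤ p := by exact_mod_cast hp3.pos
    rw [← sum_filter, sum_const, nsmul_eq_mul]
    have h2 : (((Finset.Icc 1 m).filter (fun l => p ∣ l)).card : ℝ) ≤ m / p := by
      have h3 : ((Finset.Icc 1 m).filter (fun l => p ∣ l)).card = m / p := by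
        rw [← Nat.Ioc_filter_dvd_card_eq_div]
        rfl
      rw [h3]
      exact Nat.cast_div_le
    have h3 : (0 : ℝ) ≤ (T : ℝ) / (M * p) + 1 := by positivity
    refine (mul_le_mul_of_nonneg_right h2 h3).trans ?_
    have h4 : (m : ℝ) / p * ((T : ℝ) / (M * p) + 1) =
      m * (T / M) * ((p : ℝ) ^ 2)⁻¹ + m / p := by
      field_simp
    rw [h4]
    have h5 : (m : ℝ) / p ≤ m := div_le_self (by positivity) hp1
    linarith
  refine (sum_le_sum h1).trans ?_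
  rw [sum_add_distrib, ← mul_sum, sum_const, nsmul_eq_mul]
  have h2 := inv_sum P m hP
  have h3 : (((Finset.Ioc P m).filter Nat.Prime).card : ℝ) ≤ m := by
    have : ((Finset.Ioc P m).filter Nat.Prime).card ≤ m := by
      refine (card_filter_le _ _).trans ?_
      rw [Nat.card_Ioc]
      omega
    exact_mod_cast this
  have h4 : (m : ℝ) * (T / M) * ∑ p ∈ (Finset.Ioc P m).filter Nat.Prime, ((p : ℝ) ^ 2)⁻¹ ≤
    m * (T / M) * (P : ℝ)⁻¹ := by gcongr
  have h5 : (((Finset.Ioc P m).filter Nat.Prime).card : ℝ) * m ≤ m * m := by gcongr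
  linarith

/-- **Half of the tuple is squarefree for a positive proportion of the `t`.** -/
theorem half {ι : Type} [Fintype ι] (M P N0 C m : ℕ) (D : ℕ → ℤ → ℤ) (f : ι → ℕ → ℤ → ℤ)
    (hM : 0 < M) (hm : 0 < m) (hP : 32 * Fintype.card ι + 16 ≤ P)
    (hMP : ∀ p : ℕ, p.Prime → P < p → ¬ p ∣ M)
    (hsmall : ∀ p : ℕ, p.Prime → p ≤ P → ∀ l ∈ Finset.Icc 1 m, ∀ t : ℤ, (M : ℤ) ∣ t - 1 →
      ¬ (p : ℤ) ^ 2 ∣ D l t)
    (hroot : ∀ p : ℕ, p.Prime → P < p → ∀ l ∈ Finset.Icc 1 m, ¬ p ∣ l → ∀ i,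
      TwoRoots p (f i l))
    (hfac : ∀ p : ℕ, p.Prime → P < p → ∀ l ∈ Finset.Icc 1 m, ¬ p ∣ l → ∀ t : ℤ,
      (p : ℤ) ^ 2 ∣ D l t → ∃ i, (p : ℤ) ^ 2 ∣ f i l t)
    (hbig : ∀ p : ℕ, p.Prime → P < p → ∀ l ∈ Finset.Icc 1 m, p ∣ l → ∀ t : ℤ,
      (p : ℤ) ^ 2 ∣ D l t → (p : ℤ) ∣ t)
    (hsize : ∀ l ∈ Finset.Icc 1 m, ∀ i, ∀ t : ℤ, (N0 : ℤ) < t →
      f i l t ≠ 0 ∧ |f i l t| ≤ ((C : ℤ) * t) ^ 2) :
    ∀ᶠ T : ℕ in atTop, (1 / (2 * M) : ℝ) * T ≤
      (((Ioc (0 : ℤ) T).filter (fun t : ℤ => (N0 : ℤ) < t ∧ ((M : ℤ) ∣ t - 1 ∧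
        m ≤ 2 * ((Finset.Icc 1 m).filter (fun l => Squarefree (D l t))).card))).card : ℝ) := by
  have hMr : (0 : ℝ) < M := by exact_mod_cast hM
  have hmr : (0 : ℝ) < m := by exact_mod_cast hm
  have hP0 : 0 < P := by omega
  have hPr : (0 : ℝ) < P := by exact_mod_cast hP0
  set a : ℕ := Fintype.card ι with ha
  have hε : (0 : ℝ) < 1 / (64 * (a + 1) * M) := by positivity
  filter_upwards [primes_small C _ hε, eventually_ge_atTop (32 * M * (m + N0 + 2))]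
    with T hT1 hT2
  have hT0 : (0 : ℝ) ≤ T := Nat.cast_nonneg _
  have hT2r : (32 : ℝ) * M * (m + N0 + 2) ≤ T := by exact_mod_cast hT2
  set A : Finset ℤ := (Ioc (0 : ℤ) T).filter (fun t => (M : ℤ) ∣ t - 1) with hA
  have hAlow : (T : ℝ) / M - 1 ≤ A.card := ap_lower T M hM 1
  set b : ℤ → ℕ := fun t => ((Finset.Icc 1 m).filter (fun l => ¬ Squarefree (D l t))).card with hb
  set A1 : Finset ℤ := A.filter (fun t => (N0 : ℤ) < t) with hA1
  set G : Finset ℤ := (Ioc (0 : ℤ) T).filter (fun t : ℤ => (N0 : ℤ) < t ∧ ((M : ℤ) ∣ t - 1 ∧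
        m ≤ 2 * ((Finset.Icc 1 m).filter (fun l => Squarefree (D l t))).card)) with hG
  set Z : Finset ℤ := A1.filter (fun t => m < 2 * b t) with hZ
  have hcompl : ∀ t, ((Finset.Icc 1 m).filter (fun l => Squarefree (D l t))).card + b t = m := by
    intro t
    have := card_filter_add_card_filter_not (s := Finset.Icc 1 m)
      (fun l => Squarefree (D l t))
    rw [Nat.card_Icc, Nat.add_sub_cancel] at this
    exact this
  have hA1sub : A ⊆ (G ∪ Z) ∪ Ioc (0 : ℤ) N0 := by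
    intro t ht
    obtain ⟨hta, htb⟩ := mem_filter.1 ht
    by_cases hN : (N0 : ℤ) < t
    · apply mem_union_left
      by_cases hz : m < 2 * b t
      · exact mem_union_right _ (mem_filter.2 ⟨mem_filter.2 ⟨ht, hN⟩, hz⟩)
      · apply mem_union_left
        refine mem_filter.2 ⟨hta, hN, htb, ?_⟩
        have := hcompl t
        omega
    · exact mem_union_right _ (mem_Ioc.2 ⟨(mem_Ioc.1 hta).1, not_lt.1 hN⟩)
  have hcard : (A.card : ℝ) ≤ G.card + Z.card + N0 := by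
    have h1 := (card_le_card hA1sub).trans ((card_union_le _ _).trans
      (Nat.add_le_add_right (card_union_le _ _) _))
    rw [Int.card_Ioc] at h1
    simp only [sub_zero, Int.toNat_natCast] at h1
    exact_mod_cast h1
  -- double counting
  have hZb : (Z.card : ℝ) * m ≤ 2 * ∑ t ∈ A1, (b t : ℝ) := by
    have h1 : (Z.card : ℝ) * m ≤ ∑ t ∈ Z, 2 * (b t : ℝ) := by
      rw [← nsmul_eq_mul]
      apply card_nsmul_le_sum
      intro t ht
      have := (mem_filter.1 ht).2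
      exact_mod_cast this.le
    have h2 : ∑ t ∈ Z, 2 * (b t : ℝ) ≤ ∑ t ∈ A1, 2 * (b t : ℝ) :=
      sum_le_sum_of_subset_of_nonneg (filter_subset _ _) (fun _ _ _ => by positivity)
    rw [mul_sum]
    exact h1.trans h2
  have hsumb : ∑ t ∈ A1, (b t : ℝ) =
      ∑ l ∈ Finset.Icc 1 m, ((A1.filter (fun t => ¬ Squarefree (D l t))).card : ℝ) := by
    have h1 : ∀ t, (b t : ℝ) = ∑ l ∈ Finset.Icc 1 m,
        if ¬ Squarefree (D l t) then (1 : ℝ) else 0 := by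
      intro t
      rw [hb]
      simp only
      rw [card_filter]
      push_cast
      rfl
    simp_rw [h1]
    rw [sum_comm]
    apply sum_congr rfl
    intro l _
    rw [card_filter]
    push_cast
    rfl
  have hone : ∀ l ∈ Finset.Icc 1 m, ((A1.filter (fun t => ¬ Squarefree (D l t))).card : ℝ) ≤
      (2 * a * (T / M) * (P : ℝ)⁻¹ + 2 * a * Nat.primeCounting (C * T)) +
        ∑ p ∈ (Finset.Ioc P m).filter Nat.Prime, if p ∣ l then ((T : ℝ) / (M * p) + 1) else 0 := by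
    intro l hl
    obtain ⟨hl1, hlm⟩ := Finset.mem_Icc.1 hl
    exact bad_one M P N0 C T l m (D l) (fun i => f i l) hM hP0 hl1 hlm hMP
      (fun p hp hle => hsmall p hp hle l hl) (fun p hp hlt hn => hroot p hp hlt l hl hn)
      (fun p hp hlt hn => hfac p hp hlt l hl hn) (fun p hp hlt hn => hbig p hp hlt l hl hn)
      (hsize l hl)
  have htotal : ∑ t ∈ A1, (b t : ℝ) ≤ m * (T / M) / 8 := by
    rw [hsumb]
    have h1 := sum_le_sum hone
    rw [sum_add_distrib, sum_const, nsmul_eq_mul, Nat.card_Icc, Nat.add_sub_cancel] at h1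
    have hsecond := second_sum M P T m hP0
    have h2 : (m : ℝ) * (2 * a * (T / M) * (P : ℝ)⁻¹) + m * (T / M) * (P : ℝ)⁻¹ ≤
        m * (T / M) / 16 := by
      have h3 : (2 * (a : ℝ) + 1) * (P : ℝ)⁻¹ ≤ 1 / 16 := by
        rw [← div_eq_mul_inv, div_le_div_iff₀ hPr (by norm_num)]
        have : ((32 * a + 16 : ℕ) : ℝ) ≤ P := by exact_mod_cast hP
        push_cast at this
        linarith
      have h4 : (0 : ℝ) ≤ m * (T / M) := by positivity
      calc (m : ℝ) * (2 * a * (T / M) * (P : ℝ)⁻¹) + m * (T / M) * (P : ℝ)⁻¹ =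
          m * (T / M) * ((2 * (a : ℝ) + 1) * (P : ℝ)⁻¹) := by ring
        _ ≤ m * (T / M) * (1 / 16) := by gcongr
        _ = _ := by ring
    have h3 : (m : ℝ) * (2 * a * Nat.primeCounting (C * T)) ≤ m * (T / M) / 32 := by
      have h5 : 2 * (a : ℝ) * Nat.primeCounting (C * T) ≤ T / M / 32 := by
        calc 2 * (a : ℝ) * Nat.primeCounting (C * T) ≤
            2 * (a + 1) * Nat.primeCounting (C * T) := by gcongr; linarith
          _ ≤ 2 * (a + 1) * (1 / (64 * (a + 1) * M) * T) := by gcongr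
          _ = _ := by field_simp; ring
      calc (m : ℝ) * (2 * a * Nat.primeCounting (C * T)) ≤ m * (T / M / 32) := by gcongr
        _ = _ := by ring
    have h4 : (m : ℝ) * m ≤ m * (T / M) / 32 := by
      have h5 : (m : ℝ) ≤ T / M / 32 := by
        rw [div_div, le_div_iff₀ (by positivity)]
        have : (0 : ℝ) ≤ 32 * M * (N0 + 2) := by positivity
        nlinarith
      calc (m : ℝ) * m ≤ m * (T / M / 32) := by gcongr
        _ = _ := by ring
    have h5 : (m : ℝ) * (2 * a * (T / M) * (P : ℝ)⁻¹ + 2 * a * Nat.primeCounting (C * T)) =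
      m * (2 * a * (T / M) * (P : ℝ)⁻¹) + m * (2 * a * Nat.primeCounting (C * T)) := by ring
    rw [h5] at h1
    linarith
  have hZ4 : (Z.card : ℝ) ≤ T / M / 4 := by
    have h1 : (Z.card : ℝ) * m ≤ T / M / 4 * m := by
      calc (Z.card : ℝ) * m ≤ 2 * ∑ t ∈ A1, (b t : ℝ) := hZb
        _ ≤ 2 * (m * (T / M) / 8) := by gcongr
        _ = _ := by ring
    exact le_of_mul_le_mul_right h1 hmr
  have e3 : (N0 : ℝ) + 2 ≤ T / M / 32 := by
    rw [div_div, le_div_iff₀ (by positivity)]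
    have : (0 : ℝ) ≤ 32 * M * m := by positivity
    linarith
  have e4 : 1 / (2 * (M : ℝ)) * T = T / M / 2 := by
    field_simp
  rw [e4]
  have e5 : (0 : ℝ) ≤ T / M := by positivity
  linarith

end Pool.Agent.TH4.CT
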