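import Mathlib

set_option autoImplicit false

/-!
# Squarefree values of tuples of products of linear and quadratic polynomials

`sieve`: if the integer functions `D j` (`j` in a finite set) are such that for all large primes
`p² ∣ D j t` forces `p² ∣ f i t` for one of finitely many `f i` of at most quadratic growth, each
with at most two zeros modulo `p²`, and if there is no local obstruction, then `D j t` is
squarefree for all `j` and a positive proportion of the `t`.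
-/

namespace Pool.Agent.TH4.CT

open Finset Filter

lemma ap_upper (T q : ℕ) (hq : 0 < q) (v : ℤ) :
    (((Ioc (0 : ℤ) T).filter (fun t => (q : ℤ) ∣ t - v)).card : ℝ) ≤ T / q + 1 := by
  have h := Int.Ioc_filter_modEq_card 0 (T : ℤ) (r := (q : ℤ)) (by exact_mod_cast hq) v
  have hset : (Ioc (0 : ℤ) T).filter (fun t => (q : ℤ) ∣ t - v) =
      (Ioc (0 : ℤ) T).filter (fun t => t ≡ v [ZMOD (q : ℤ)]) := by
    ext t
    simp only [mem_filter]
    rw [Int.modEq_comm, Int.modEq_iff_dvd]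
  rw [hset]
  have hq' : (0 : ℚ) < q := by exact_mod_cast hq
  set A : ℤ := ⌊(((T : ℤ) : ℚ) - v) / ((q : ℤ) : ℚ)⌋ with hA
  set B : ℤ := ⌊(((0 : ℤ) : ℚ) - v) / ((q : ℤ) : ℚ)⌋ with hB
  have h1 : (A : ℚ) ≤ (((T : ℤ) : ℚ) - v) / ((q : ℤ) : ℚ) := Int.floor_le _
  have h2 : (((0 : ℤ) : ℚ) - v) / ((q : ℤ) : ℚ) < B + 1 := Int.lt_floor_add_one _
  have h3 : ((A - B : ℤ) : ℚ) ≤ T / q + 1 := by
    push_cast at h1 h2 ⊢
    have h4 : ((T : ℚ) - v) / q = T / q - v / q := by ring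
    have h5 : ((0 : ℚ) - v) / q = - (v / q) := by ring
    rw [h4] at h1
    rw [h5] at h2
    linarith
  have h6 : ((((Ioc (0 : ℤ) T).filter (fun t => t ≡ v [ZMOD (q : ℤ)])).card : ℤ) : ℚ) ≤
      T / q + 1 := by
    rw [h]
    push_cast at h3 ⊢
    rcases le_total (A : ℚ) (B : ℚ) with h7 | h7
    · rw [max_eq_right]
      · positivity
      · linarith
    · rw [max_eq_left]
      · exact h3
      · linarith
  have h8 : (((((Ioc (0 : ℤ) T).filter (fun t => t ≡ v [ZMOD (q : ℤ)])).card : ℚ)) : ℝ) ≤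
      ((T / q + 1 : ℚ) : ℝ) := by
    exact_mod_cast h6
  push_cast at h8
  exact h8

lemma ap_lower (T q : ℕ) (hq : 0 < q) (v : ℤ) :
    (T : ℝ) / q - 1 ≤ (((Ioc (0 : ℤ) T).filter (fun t => (q : ℤ) ∣ t - v)).card : ℝ) := by
  have h := Int.Ioc_filter_modEq_card 0 (T : ℤ) (r := (q : ℤ)) (by exact_mod_cast hq) v
  have hset : (Ioc (0 : ℤ) T).filter (fun t => (q : ℤ) ∣ t - v) =
      (Ioc (0 : ℤ) T).filter (fun t => t ≡ v [ZMOD (q : ℤ)]) := by
    ext t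
    simp only [mem_filter]
    rw [Int.modEq_comm, Int.modEq_iff_dvd]
  rw [hset]
  have hq' : (0 : ℚ) < q := by exact_mod_cast hq
  set A : ℤ := ⌊(((T : ℤ) : ℚ) - v) / ((q : ℤ) : ℚ)⌋ with hA
  set B : ℤ := ⌊(((0 : ℤ) : ℚ) - v) / ((q : ℤ) : ℚ)⌋ with hB
  have h1 : (((T : ℤ) : ℚ) - v) / ((q : ℤ) : ℚ) < A + 1 := Int.lt_floor_add_one _
  have h2 : (B : ℚ) ≤ (((0 : ℤ) : ℚ) - v) / ((q : ℤ) : ℚ) := Int.floor_le _
  have h3 : (T : ℚ) / q - 1 ≤ ((A - B : ℤ) : ℚ) := by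
    push_cast at h1 h2 ⊢
    have h4 : ((T : ℚ) - v) / q = T / q - v / q := by ring
    have h5 : ((0 : ℚ) - v) / q = - (v / q) := by ring
    rw [h4] at h1
    rw [h5] at h2
    linarith
  have h6 : (T : ℚ) / q - 1 ≤
      ((((Ioc (0 : ℤ) T).filter (fun t => t ≡ v [ZMOD (q : ℤ)])).card : ℤ) : ℚ) := by
    rw [h]
    push_cast at h3 ⊢
    exact h3.trans (le_max_left _ _)
  have h8 : ((T / q - 1 : ℚ) : ℝ) ≤
      (((((Ioc (0 : ℤ) T).filter (fun t => t ≡ v [ZMOD (q : ℤ)])).card : ℚ)) : ℝ) := by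
    exact_mod_cast h6
  push_cast at h8
  exact h8

/-- two classes for coprime moduli -/
lemma ap_two (T Q m : ℕ) (hQ : 0 < Q) (hm : 0 < m) (hc : Nat.Coprime Q m) (t0 r : ℤ) :
    (((Ioc (0 : ℤ) T).filter (fun t => (Q : ℤ) ∣ t - t0 ∧ (m : ℤ) ∣ t - r)).card : ℝ) ≤
      T / (Q * m) + 1 := by
  rcases ((Ioc (0 : ℤ) T).filter (fun t => (Q : ℤ) ∣ t - t0 ∧
    (m : ℤ) ∣ t - r)).eq_empty_or_nonempty with h | ⟨t1, ht1⟩
  · rw [h]
    simp only [card_empty, Nat.cast_zero]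
    positivity
  · obtain ⟨_, h1, h2⟩ := mem_filter.1 ht1
    refine le_trans ?_ ((ap_upper T (Q * m) (Nat.mul_pos hQ hm) t1).trans_eq (by push_cast; ring))
    rw [Nat.cast_le]
    apply card_le_card
    intro t ht
    obtain ⟨h0, h3, h4⟩ := mem_filter.1 ht
    refine mem_filter.2 ⟨h0, ?_⟩
    push_cast
    have e1 : (Q : ℤ) ∣ t - t1 := by
      have := dvd_sub h3 h1
      rwa [sub_sub_sub_cancel_right] at this
    have e2 : (m : ℤ) ∣ t - t1 := by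
      have := dvd_sub h4 h2
      rwa [sub_sub_sub_cancel_right] at this
    exact (Nat.isCoprime_iff_coprime.2 hc).mul_dvd e1 e2

/-- at most two zeros modulo `p²` -/
def TwoRoots (p : ℕ) (f : ℤ → ℤ) : Prop :=
  ∃ r₁ r₂ : ℤ, ∀ t : ℤ, (p : ℤ) ^ 2 ∣ f t → (p : ℤ) ^ 2 ∣ t - r₁ ∨ (p : ℤ) ^ 2 ∣ t - r₂

lemma isCoprime_of {p : ℕ} (hp : p.Prime) {a : ℤ} (h : ¬ (p : ℤ) ∣ a) : IsCoprime (p : ℤ) a := by
  rw [Prime.coprime_iff_not_dvd (Nat.prime_iff_prime_int.1 hp)]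
  exact h

/-- quadratic polynomials -/
lemma twoRoots_quadratic {p : ℕ} (hp : p.Prime) (α β γ : ℤ) (h1 : ¬ (p : ℤ) ∣ α)
    (h2 : ¬ (p : ℤ) ∣ β ^ 2 - 4 * α * γ) : TwoRoots p (fun t => α * t ^ 2 + β * t + γ) := by
  have hpp : Prime (p : ℤ) := Nat.prime_iff_prime_int.1 hp
  have key : ∀ t t1 : ℤ, (p : ℤ) ^ 2 ∣ α * t ^ 2 + β * t + γ → (p : ℤ) ^ 2 ∣ α * t1 ^ 2 + β * t1 + γ →
      (p : ℤ) ^ 2 ∣ t - t1 ∨ (p : ℤ) ^ 2 ∣ α * (t + t1) + β := by
    intro t t1 ht ht1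
    have e : (p : ℤ) ^ 2 ∣ (t - t1) * (α * (t + t1) + β) := by
      have := dvd_sub ht ht1
      have e2 : (t - t1) * (α * (t + t1) + β) =
        (α * t ^ 2 + β * t + γ) - (α * t1 ^ 2 + β * t1 + γ) := by ring
      rw [e2]; exact this
    by_cases h3 : (p : ℤ) ∣ t - t1
    · left
      have h4 : ¬ (p : ℤ) ∣ α * (t + t1) + β := by
        intro h4
        apply h2
        have h5 : (p : ℤ) ∣ 2 * α * t1 + β := by
          have e3 : 2 * α * t1 + β = (α * (t + t1) + β) - α * (t - t1) := by ring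
          rw [e3]
          exact dvd_sub h4 (h3.mul_left _)
        have h6 : (p : ℤ) ∣ α * t1 ^ 2 + β * t1 + γ := (dvd_pow_self _ two_ne_zero).trans ht1
        have e4 : β ^ 2 - 4 * α * γ = (2 * α * t1 + β) * (2 * α * t1 + β) -
          (4 * α) * (α * t1 ^ 2 + β * t1 + γ) := by ring
        rw [e4]
        exact dvd_sub (h5.mul_left _) (h6.mul_left _)
      exact IsCoprime.dvd_of_dvd_mul_right ((isCoprime_of hp h4).pow_left) e
    · right
      exact IsCoprime.dvd_of_dvd_mul_left ((isCoprime_of hp h3).pow_left) e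
  by_cases h : ∃ t1 : ℤ, (p : ℤ) ^ 2 ∣ α * t1 ^ 2 + β * t1 + γ
  · obtain ⟨t1, ht1⟩ := h
    by_cases h' : ∃ t2 : ℤ, (p : ℤ) ^ 2 ∣ α * t2 ^ 2 + β * t2 + γ ∧ ¬ (p : ℤ) ^ 2 ∣ t2 - t1
    · obtain ⟨t2, ht2, hn⟩ := h'
      refine ⟨t1, t2, fun t ht => ?_⟩
      rcases key t t1 ht ht1 with h3 | h3
      · exact Or.inl h3
      · right
        rcases key t2 t1 ht2 ht1 with h4 | h4
        · exact absurd h4 hn
        · have h5 : (p : ℤ) ^ 2 ∣ α * (t - t2) := by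
            have e5 : α * (t - t2) = (α * (t + t1) + β) - (α * (t2 + t1) + β) := by ring
            rw [e5]; exact dvd_sub h3 h4
          exact IsCoprime.dvd_of_dvd_mul_left ((isCoprime_of hp h1).pow_left) h5
    · push Not at h'
      exact ⟨t1, t1, fun t ht => Or.inl (h' t ht)⟩
  · push Not at h
    exact ⟨0, 0, fun t ht => absurd ht (h t)⟩

/-- linear polynomials -/
lemma twoRoots_linear {p : ℕ} (hp : p.Prime) (β γ : ℤ) (h1 : ¬ (p : ℤ) ∣ β) :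
    TwoRoots p (fun t => β * t + γ) := by
  by_cases h : ∃ t1 : ℤ, (p : ℤ) ^ 2 ∣ β * t1 + γ
  · obtain ⟨t1, ht1⟩ := h
    refine ⟨t1, t1, fun t ht => Or.inl ?_⟩
    have h5 : (p : ℤ) ^ 2 ∣ β * (t - t1) := by
      have e5 : β * (t - t1) = (β * t + γ) - (β * t1 + γ) := by ring
      rw [e5]; exact dvd_sub ht ht1
    exact IsCoprime.dvd_of_dvd_mul_left ((isCoprime_of hp h1).pow_left) h5
  · push Not at h
    exact ⟨0, 0, fun t ht => absurd ht (h t)⟩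

/-- bad `t` for one function and one prime -/
lemma bad_count {p : ℕ} (hp : p.Prime) {f : ℤ → ℤ} (hf : TwoRoots p f) (T Q : ℕ) (hQ : 0 < Q)
    (hc : Nat.Coprime Q (p ^ 2)) (t0 : ℤ) :
    (((Ioc (0 : ℤ) T).filter (fun t => (Q : ℤ) ∣ t - t0 ∧ (p : ℤ) ^ 2 ∣ f t)).card : ℝ) ≤
      2 * (T / (Q * (p : ℝ) ^ 2) + 1) := by
  obtain ⟨r₁, r₂, hr⟩ := hf
  have hp2 : 0 < p ^ 2 := pow_pos hp.pos 2
  have h1 := ap_two T Q (p ^ 2) hQ hp2 hc t0 r₁
  have h2 := ap_two T Q (p ^ 2) hQ hp2 hc t0 r₂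
  push_cast at h1 h2
  have hsub : (Ioc (0 : ℤ) T).filter (fun t => (Q : ℤ) ∣ t - t0 ∧ (p : ℤ) ^ 2 ∣ f t) ⊆
      (Ioc (0 : ℤ) T).filter (fun t => (Q : ℤ) ∣ t - t0 ∧ (p : ℤ) ^ 2 ∣ t - r₁) ∪
      (Ioc (0 : ℤ) T).filter (fun t => (Q : ℤ) ∣ t - t0 ∧ (p : ℤ) ^ 2 ∣ t - r₂) := by
    intro t ht
    obtain ⟨ha, hb, hd⟩ := mem_filter.1 ht
    rw [mem_union, mem_filter, mem_filter]
    rcases hr t hd with h | h
    · exact Or.inl ⟨ha, hb, h⟩
    · exact Or.inr ⟨ha, hb, h⟩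
  have h3 : (((Ioc (0 : ℤ) T).filter (fun t => (Q : ℤ) ∣ t - t0 ∧ (p : ℤ) ^ 2 ∣ f t)).card : ℝ) ≤
      ((Ioc (0 : ℤ) T).filter (fun t => (Q : ℤ) ∣ t - t0 ∧ (p : ℤ) ^ 2 ∣ t - r₁)).card +
      ((Ioc (0 : ℤ) T).filter (fun t => (Q : ℤ) ∣ t - t0 ∧ (p : ℤ) ^ 2 ∣ t - r₂)).card := by
    exact_mod_cast (card_le_card hsub).trans (card_union_le _ _)
  linarith

/-- few primes -/
lemma primes_small (C : ℕ) (ε : ℝ) (hε : 0 < ε) :
    ∀ᶠ T : ℕ in atTop, (Nat.primeCounting (C * T) : ℝ) ≤ ε * T := by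
  rcases Nat.eq_zero_or_pos C with rfl | hC
  · refine Eventually.of_forall fun T => ?_
    simp only [zero_mul, Nat.primeCounting_zero, Nat.cast_zero]
    positivity
  have h1 := Chebyshev.eventually_primeCounting_le (ε := 1) one_pos
  have hCr : (0 : ℝ) < C := by exact_mod_cast hC
  have ht : Tendsto (fun T : ℕ => (C : ℝ) * (T : ℝ)) atTop atTop :=
    Tendsto.const_mul_atTop hCr tendsto_natCast_atTop_atTop
  have h2 := ht.eventually h1
  have h3 := (Real.tendsto_log_atTop.comp ht).eventually_ge_atTop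
    ((Real.log 4 + 1) * C / ε)
  have h4 := (Real.tendsto_log_atTop.comp ht).eventually_gt_atTop 0
  filter_upwards [h2, h3, h4] with T g2 g3 g4
  simp only [Function.comp] at g3 g4
  have e1 : ⌊(C : ℝ) * (T : ℝ)⌋₊ = C * T := by
    rw [← Nat.cast_mul, Nat.floor_natCast]
  rw [e1] at g2
  refine g2.trans ?_
  rw [div_le_iff₀ hε] at g3
  rw [div_le_iff₀ g4]
  have hT : (0 : ℝ) ≤ T := Nat.cast_nonneg _
  calc (Real.log 4 + 1) * (↑C * ↑T) = ((Real.log 4 + 1) * C) * T := by ring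
    _ ≤ (Real.log (↑C * ↑T) * ε) * T := by gcongr
    _ = _ := by ring

/-- local conditions at the small primes, put together -/
lemma crt_local {J : Type} (W : Finset J) (D : J → ℤ → ℤ)
    (hper : ∀ j ∈ W, ∀ n t t' : ℤ, n ∣ t - t' → n ∣ D j t - D j t')
    (hloc : ∀ p : ℕ, p.Prime → ∃ t : ℕ, ∀ j ∈ W, ¬ (p : ℤ) ^ 2 ∣ D j t) (P : ℕ) :
    ∃ Q : ℕ, 0 < Q ∧ (∀ p : ℕ, p.Prime → P < p → Nat.Coprime Q (p ^ 2)) ∧ ∃ t0 : ℤ,
      ∀ t : ℤ, (Q : ℤ) ∣ t - t0 → ∀ p : ℕ, p.Prime → p ≤ P → ∀ j ∈ W, ¬ (p : ℤ) ^ 2 ∣ D j t := by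
  classical
  set S : Finset ℕ := (Finset.range (P + 1)).filter Nat.Prime with hS
  have hSp : ∀ p ∈ S, p.Prime := fun p hp => (mem_filter.1 hp).2
  choose! τ hτ using hloc
  obtain ⟨k, hk⟩ := Nat.chineseRemainderOfFinset τ (fun p => p ^ 2) S
    (fun p hp => pow_ne_zero 2 (hSp p hp).ne_zero) (by
      intro p hp q hq hpq
      exact Nat.Coprime.pow 2 2 ((Nat.coprime_primes (hSp p hp) (hSp q hq)).2 hpq))
  refine ⟨∏ p ∈ S, p ^ 2, Finset.prod_pos fun p hp => pow_pos (hSp p hp).pos 2, ?_, k, ?_⟩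
  · intro p hp hlt
    apply Nat.Coprime.prod_left
    intro q hq
    have hqle : q ≤ P := Nat.lt_succ_iff.1 (mem_range.1 (mem_filter.1 hq).1)
    exact Nat.Coprime.pow 2 2 ((Nat.coprime_primes (hSp q hq) hp).2 (by omega))
  · intro t ht p hp hle j hj hd
    have hpS : p ∈ S := mem_filter.2 ⟨mem_range.2 (by omega), hp⟩
    have h1 : ((p : ℤ) ^ 2) ∣ t - k := by
      have : ((p ^ 2 : ℕ) : ℤ) ∣ ((∏ p ∈ S, p ^ 2 : ℕ) : ℤ) := by
        exact_mod_cast Finset.dvd_prod_of_mem (fun p => p ^ 2) hpS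
      push_cast at this ht ⊢
      exact this.trans ht
    have h2 : ((p : ℤ) ^ 2) ∣ (k : ℤ) - τ p := by
      have h3 := (hk p hpS).symm.dvd
      push_cast at h3
      exact h3
    have h3 : ((p : ℤ) ^ 2) ∣ t - τ p := by
      have := dvd_add h1 h2
      rwa [sub_add_sub_cancel] at this
    apply hτ p hp j hj
    have h4 := hper j hj _ _ _ h3
    have h5 := dvd_sub hd h4
    rwa [sub_sub_cancel] at h5

open Classical in
/-- **The sieve.** -/
theorem sieve {I J : Type} (s : Finset I) (f : I → ℤ → ℤ) (W : Finset J) (D : J → ℤ → ℤ)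
    (P0 C N0 : ℕ)
    (hroots : ∀ p : ℕ, p.Prime → P0 < p → ∀ i ∈ s, TwoRoots p (f i))
    (hsize : ∀ i ∈ s, ∀ t : ℤ, N0 < t → f i t ≠ 0 ∧ |f i t| ≤ ((C : ℤ) * t) ^ 2)
    (hfac : ∀ p : ℕ, p.Prime → P0 < p → ∀ j ∈ W, ∀ t : ℤ, (p : ℤ) ^ 2 ∣ D j t →
      ∃ i ∈ s, (p : ℤ) ^ 2 ∣ f i t)
    (hper : ∀ j ∈ W, ∀ n t t' : ℤ, n ∣ t - t' → n ∣ D j t - D j t')
    (hloc : ∀ p : ℕ, p.Prime → ∃ t : ℕ, ∀ j ∈ W, ¬ (p : ℤ) ^ 2 ∣ D j t) :
    ∃ c : ℝ, 0 < c ∧ ∀ᶠ T : ℕ in atTop, c * T ≤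
      (((Ioc (0 : ℤ) T).filter (fun t : ℤ => (N0 : ℤ) < t ∧ ∀ j ∈ W, Squarefree (D j t))).card :
        ℝ) := by
  set P : ℕ := max P0 (8 * s.card + 1) with hP
  have hP0 : P0 ≤ P := le_max_left _ _
  have hP8 : 8 * s.card + 1 ≤ P := le_max_right _ _
  obtain ⟨Q, hQ, hcop, t0, ht0⟩ := crt_local W D hper hloc P
  have hQr : (0 : ℝ) < Q := by exact_mod_cast hQ
  have hPr : (0 : ℝ) < P := by
    have : 0 < P := by omega
    exact_mod_cast this
  refine ⟨1 / (4 * Q), by positivity, ?_⟩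
  have hε : (0 : ℝ) < 1 / (8 * Q * (s.card + 1)) := by positivity
  filter_upwards [primes_small C _ hε, eventually_ge_atTop (8 * Q * (N0 + 2))] with T hT1 hT2
  have hT0 : (0 : ℝ) ≤ T := Nat.cast_nonneg _
  have hT2r : (8 : ℝ) * Q * (N0 + 2) ≤ T := by exact_mod_cast hT2
  -- all candidates
  set A : Finset ℤ := (Ioc (0 : ℤ) T).filter (fun t => (Q : ℤ) ∣ t - t0) with hA
  have hAlow : (T : ℝ) / Q - 1 ≤ A.card := ap_lower T Q hQ t0
  set G : Finset ℤ := (Ioc (0 : ℤ) T).filter (fun t : ℤ => (N0 : ℤ) < t ∧ ∀ j ∈ W,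
    Squarefree (D j t)) with hG
  set R : Finset ℕ := (Finset.Ioc P (C * T)).filter Nat.Prime with hR
  set Bd : Finset ℤ := s.biUnion (fun i => R.biUnion (fun p =>
    (Ioc (0 : ℤ) T).filter (fun t => (Q : ℤ) ∣ t - t0 ∧ (p : ℤ) ^ 2 ∣ f i t))) with hBd
  have hsub : A ⊆ G ∪ (Bd ∪ Ioc (0 : ℤ) N0) := by
    intro t ht
    obtain ⟨hta, htb⟩ := mem_filter.1 ht
    by_cases hN : (N0 : ℤ) < t
    · by_cases hsq : ∀ j ∈ W, Squarefree (D j t)
      · exact mem_union_left _ (mem_filter.2 ⟨hta, hN, hsq⟩)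
      · apply mem_union_right
        apply mem_union_left
        push Not at hsq
        obtain ⟨j, hj, hns⟩ := hsq
        rw [← Int.squarefree_natAbs, Nat.squarefree_iff_prime_squarefree] at hns
        push Not at hns
        obtain ⟨p, hp, hpd⟩ := hns
        have hpd' : (p : ℤ) ^ 2 ∣ D j t := by
          rw [← Int.natCast_dvd] at hpd
          push_cast at hpd
          rwa [← pow_two] at hpd
        have hPp : P < p := by
          by_contra hle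
          exact ht0 t htb p hp (not_lt.1 hle) j hj hpd'
        obtain ⟨i, hi, hid⟩ := hfac p hp (lt_of_le_of_lt hP0 hPp) j hj t hpd'
        obtain ⟨hne, hle⟩ := hsize i hi t hN
        have hpCT : p ≤ C * T := by
          have h1 : (p : ℤ) ^ 2 ≤ ((C : ℤ) * t) ^ 2 :=
            (Int.le_of_dvd (abs_pos.2 hne) ((dvd_abs _ _).2 hid)).trans hle
          have htpos : 0 < t := (mem_Ioc.1 hta).1
          have h2 : (p : ℤ) ≤ (C : ℤ) * t := by
            by_contra hlt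
            push Not at hlt
            have h3 : 0 ≤ (C : ℤ) * t := by positivity
            nlinarith
          have h3 : (C : ℤ) * t ≤ (C : ℤ) * T := by
            have := (mem_Ioc.1 hta).2
            gcongr
          exact_mod_cast h2.trans h3
        rw [hBd, mem_biUnion]
        refine ⟨i, hi, ?_⟩
        rw [mem_biUnion]
        exact ⟨p, mem_filter.2 ⟨mem_Ioc.2 ⟨hPp, hpCT⟩, hp⟩, mem_filter.2 ⟨hta, htb, hid⟩⟩
    · apply mem_union_right
      apply mem_union_right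
      exact mem_Ioc.2 ⟨(mem_Ioc.1 hta).1, not_lt.1 hN⟩
  have hcard : (A.card : ℝ) ≤ G.card + (Bd.card + N0) := by
    have h1 := (card_le_card hsub).trans ((card_union_le _ _).trans
      (Nat.add_le_add_left (card_union_le _ _) _))
    rw [Int.card_Ioc] at h1
    simp only [sub_zero, Int.toNat_natCast] at h1
    exact_mod_cast h1
  -- the bad ones
  have hBdc : (Bd.card : ℝ) ≤ s.card * (2 * (T / (Q * P)) + 2 * Nat.primeCounting (C * T)) := by
    have h1 : (Bd.card : ℝ) ≤ ∑ i ∈ s, ∑ p ∈ R,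
        (((Ioc (0 : ℤ) T).filter (fun t => (Q : ℤ) ∣ t - t0 ∧ (p : ℤ) ^ 2 ∣ f i t)).card : ℝ) := by
      have h2 := card_biUnion_le (s := s) (t := fun i => R.biUnion (fun p =>
        (Ioc (0 : ℤ) T).filter (fun t => (Q : ℤ) ∣ t - t0 ∧ (p : ℤ) ^ 2 ∣ f i t)))
      have h3 : ∑ i ∈ s, (R.biUnion (fun p =>
        (Ioc (0 : ℤ) T).filter (fun t => (Q : ℤ) ∣ t - t0 ∧ (p : ℤ) ^ 2 ∣ f i t))).card ≤
        ∑ i ∈ s, ∑ p ∈ R,
          ((Ioc (0 : ℤ) T).filter (fun t => (Q : ℤ) ∣ t - t0 ∧ (p : ℤ) ^ 2 ∣ f i t)).card :=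
        sum_le_sum fun i _ => card_biUnion_le
      exact_mod_cast h2.trans h3
    refine h1.trans ?_
    have h4 : ∀ i ∈ s, ∑ p ∈ R,
        (((Ioc (0 : ℤ) T).filter (fun t => (Q : ℤ) ∣ t - t0 ∧ (p : ℤ) ^ 2 ∣ f i t)).card : ℝ) ≤
        2 * (T / (Q * P)) + 2 * Nat.primeCounting (C * T) := by
      intro i hi
      have h5 : ∑ p ∈ R,
        (((Ioc (0 : ℤ) T).filter (fun t => (Q : ℤ) ∣ t - t0 ∧ (p : ℤ) ^ 2 ∣ f i t)).card : ℝ) ≤
          ∑ p ∈ R, (2 * (T / Q) * ((p : ℝ) ^ 2)⁻¹ + 2) := by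
        apply sum_le_sum
        intro p hp
        obtain ⟨hp1, hp2⟩ := mem_filter.1 hp
        have h6 := bad_count hp2 (hroots p hp2 (lt_of_le_of_lt hP0 (mem_Ioc.1 hp1).1) i hi) T Q hQ
          (hcop p hp2 (mem_Ioc.1 hp1).1) t0
        refine h6.trans (le_of_eq ?_)
        have : (p : ℝ) ≠ 0 := by exact_mod_cast hp2.ne_zero
        field_simp
      refine h5.trans ?_
      rw [sum_add_distrib, ← mul_sum, sum_const, nsmul_eq_mul]
      have h7 : ∑ p ∈ R, ((p : ℝ) ^ 2)⁻¹ ≤ (P : ℝ)⁻¹ := by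
        have h8 : ∑ p ∈ R, ((p : ℝ) ^ 2)⁻¹ ≤ ∑ p ∈ Finset.Ioc P (max P (C * T)), ((p : ℝ) ^ 2)⁻¹ := by
          apply sum_le_sum_of_subset_of_nonneg
          · intro p hp
            obtain ⟨hp1, hp2⟩ := mem_filter.1 hp
            obtain ⟨ha, hb⟩ := mem_Ioc.1 hp1
            exact mem_Ioc.2 ⟨ha, hb.trans (le_max_right _ _)⟩
          · intro p _ _
            positivity
        refine h8.trans ((sum_Ioc_inv_sq_le_sub (by omega) (le_max_left _ _)).trans ?_)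
        have : (0 : ℝ) ≤ ((max P (C * T) : ℕ) : ℝ)⁻¹ := by positivity
        linarith
      have h9 : (R.card : ℝ) ≤ Nat.primeCounting (C * T) := by
        have : R.card ≤ Nat.primeCounting (C * T) := by
          rw [← Nat.primesLE_card_eq_primeCounting]
          apply card_le_card
          intro p hp
          obtain ⟨hp1, hp2⟩ := mem_filter.1 hp
          rw [Nat.mem_primesLE]
          exact ⟨(mem_Ioc.1 hp1).2, hp2⟩
        exact_mod_cast this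
      have h10 : 2 * ((T : ℝ) / Q) * ∑ p ∈ R, ((p : ℝ) ^ 2)⁻¹ ≤ 2 * (T / (Q * P)) := by
        calc 2 * ((T : ℝ) / Q) * ∑ p ∈ R, ((p : ℝ) ^ 2)⁻¹ ≤ 2 * ((T : ℝ) / Q) * (P : ℝ)⁻¹ := by
              gcongr
          _ = _ := by field_simp
      linarith
    refine (sum_le_sum h4).trans ?_
    rw [sum_const, nsmul_eq_mul]
  -- numbers
  have hs0 : (0 : ℝ) ≤ s.card := Nat.cast_nonneg _
  have h8s : (8 : ℝ) * s.card ≤ P := by
    have : 8 * s.card ≤ P := by omega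
    exact_mod_cast this
  have e1 : (s.card : ℝ) * (2 * (T / (Q * P))) ≤ T / Q / 4 := by
    have : (s.card : ℝ) * (2 * (T / (Q * P))) = T / Q / 4 * (8 * s.card / P) := by
      field_simp
      ring
    rw [this]
    have h2 : (8 : ℝ) * s.card / P ≤ 1 := by
      rw [div_le_one hPr]; exact h8s
    have h3 : (0 : ℝ) ≤ T / Q / 4 := by positivity
    nlinarith
  have e2 : (s.card : ℝ) * (2 * Nat.primeCounting (C * T)) ≤ T / Q / 4 := by
    have h1 : (s.card : ℝ) * (2 * Nat.primeCounting (C * T)) ≤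
        s.card * (2 * (1 / (8 * Q * (s.card + 1)) * T)) := by gcongr
    refine h1.trans ?_
    have h2 : (s.card : ℝ) * (2 * (1 / (8 * Q * (s.card + 1)) * T)) =
      T / Q / 4 * (s.card / (s.card + 1)) := by
      field_simp
      ring
    rw [h2]
    have h3 : (s.card : ℝ) / (s.card + 1) ≤ 1 := by
      rw [div_le_one (by positivity)]; linarith
    have h4 : (0 : ℝ) ≤ T / Q / 4 := by positivity
    nlinarith
  have e3 : (N0 : ℝ) + 2 ≤ T / Q / 8 := by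
    rw [div_div, le_div_iff₀ (by positivity)]
    linarith
  have e4 : 1 / (4 * (Q : ℝ)) * T = T / Q / 4 := by
    field_simp
  have e5 : (s.card : ℝ) * (2 * (T / (Q * P)) + 2 * Nat.primeCounting (C * T)) =
    s.card * (2 * (T / (Q * P))) + s.card * (2 * Nat.primeCounting (C * T)) := by ring
  rw [e4]
  rw [e5] at hBdc
  linarith

end Pool.Agent.TH4.CT
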