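import Pool.Agent.TH4.CT.Sieve

set_option autoImplicit false

/-!
# From the variable `t` to the values `A t ^ e`
-/

namespace Pool.Agent.TH4.CT

open Finset Filter
open scoped Classical

lemma toNat_count (T N0 : ℕ) (P : ℤ → Prop) :
    ((Ioc (0 : ℤ) T).filter (fun t : ℤ => (N0 : ℤ) < t ∧ P t)).card ≤
      ((Icc 1 T).filter (fun t : ℕ => N0 < t ∧ P (t : ℤ))).card := by
  apply card_le_card_of_injOn Int.toNat
  · intro t ht
    obtain ⟨h1, h2, h3⟩ := mem_filter.1 (mem_coe.1 ht)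
    obtain ⟨h4, h5⟩ := mem_Ioc.1 h1
    have h6 : ((t.toNat : ℕ) : ℤ) = t := Int.toNat_of_nonneg h4.le
    apply mem_coe.2
    refine mem_filter.2 ⟨mem_Icc.2 ⟨by omega, by omega⟩, by omega, ?_⟩
    rw [h6]; exact h3
  · intro t ht t' ht' h
    have h1 := (mem_Ioc.1 (mem_filter.1 (mem_coe.1 ht)).1).1
    have h2 := (mem_Ioc.1 (mem_filter.1 (mem_coe.1 ht')).1).1

    omega

lemma to_X (A e : ℕ) (hA : 0 < A) (he : 0 < e) (G N : ℕ → Prop)
    (hGN : ∀ t, 0 < t → G t → N (A * t ^ e)) {c : ℝ} (hc : 0 < c)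
    (h : ∀ᶠ T : ℕ in atTop, c * T ≤ (((Icc 1 T).filter G).card : ℝ)) :
    ∃ c' : ℝ, 0 < c' ∧ ∀ᶠ X : ℕ in atTop,
      c' * (X : ℝ) ^ (1 / (e : ℝ)) ≤ (((Icc 1 X).filter N).card : ℝ) := by
  have her : (0 : ℝ) < e := by exact_mod_cast he
  have hAr : (0 : ℝ) < A := by exact_mod_cast hA
  set B : ℝ := ((A : ℝ) ^ (1 / (e : ℝ)))⁻¹ with hB
  have hB0 : 0 < B := by positivity
  set τ : ℕ → ℕ := fun X => ⌊B * (X : ℝ) ^ (1 / (e : ℝ))⌋₊ with hτ
  have ht1 : Tendsto (fun X : ℕ => B * (X : ℝ) ^ (1 / (e : ℝ))) atTop atTop :=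
    ((tendsto_rpow_atTop (by positivity)).comp tendsto_natCast_atTop_atTop).const_mul_atTop hB0
  have ht2 : Tendsto τ atTop atTop := tendsto_nat_floor_atTop.comp ht1
  refine ⟨c * B / 2, by positivity, ?_⟩
  filter_upwards [ht2.eventually h, ht1.eventually_ge_atTop 2] with X h1 h2
  have h3 : B * (X : ℝ) ^ (1 / (e : ℝ)) < τ X + 1 := Nat.lt_floor_add_one _
  have h4 : c * B / 2 * (X : ℝ) ^ (1 / (e : ℝ)) ≤ c * τ X := by
    have : c * B / 2 * (X : ℝ) ^ (1 / (e : ℝ)) = c * (B * (X : ℝ) ^ (1 / (e : ℝ)) / 2) := by ring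
    rw [this]
    apply mul_le_mul_of_nonneg_left _ hc.le
    linarith
  refine h4.trans (h1.trans ?_)
  rw [Nat.cast_le]
  apply card_le_card_of_injOn (fun t => A * t ^ e)
  · intro t ht
    obtain ⟨h5, h6⟩ := mem_filter.1 (mem_coe.1 ht)
    obtain ⟨h7, h8⟩ := mem_Icc.1 h5
    apply mem_coe.2
    refine mem_filter.2 ⟨mem_Icc.2 ⟨?_, ?_⟩, hGN t h7 h6⟩
    · exact Nat.mul_pos hA (pow_pos h7 e)
    · have h9 : (t : ℝ) ≤ B * (X : ℝ) ^ (1 / (e : ℝ)) :=
        le_trans (by exact_mod_cast h8) (Nat.floor_le (by positivity))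
      have h10 : ((A : ℝ) ^ (1 / (e : ℝ)) * t) ^ e ≤ ((X : ℝ) ^ (1 / (e : ℝ))) ^ e := by
        apply pow_le_pow_left₀ (by positivity)
        rw [hB, inv_mul_eq_div, le_div_iff₀ (by positivity)] at h9
        linarith
      rw [mul_pow, ← Real.rpow_natCast, ← Real.rpow_mul hAr.le, one_div_mul_cancel her.ne',
        Real.rpow_one, ← Real.rpow_natCast ((X : ℝ) ^ (1 / (e : ℝ))), ← Real.rpow_mul
        (Nat.cast_nonneg _), one_div_mul_cancel her.ne', Real.rpow_one] at h10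
      exact_mod_cast h10
  · intro t ht t' ht' h
    simp only at h
    have h5 := Nat.eq_of_mul_eq_mul_left hA h
    exact Nat.pow_left_injective (Nat.pos_iff_ne_zero.1 he) h5

end Pool.Agent.TH4.CT
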