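import Pool.Agent.TH4.CT.Half

set_option autoImplicit false

/-!
# From the variable `t` to the values near `A t ^ e`, uniform version; the modulus
-/

namespace Pool.Agent.TH4.CT

open Finset Filter
open scoped Classical

/-- `M0` times the product of the primes at most `P` -/
def MQ (M0 P : ℕ) : ℕ := M0 * ∏ p ∈ (range (P + 1)).filter Nat.Prime, p

lemma MQ_pos (M0 P : ℕ) (h : 0 < M0) : 0 < MQ M0 P :=
  Nat.mul_pos h (Finset.prod_pos fun _ hp => ((mem_filter.1 hp).2).pos)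

lemma dvd_MQ {M0 P p : ℕ} (hp : p.Prime) (hle : p ≤ P) : p ∣ MQ M0 P :=
  (Finset.dvd_prod_of_mem (fun q => q) (mem_filter.2 ⟨mem_range.2 (by omega), hp⟩)).mul_left _

lemma M0_dvd_MQ (M0 P : ℕ) : M0 ∣ MQ M0 P := dvd_mul_right _ _

lemma not_dvd_MQ {M0 P p : ℕ} (h : 0 < M0) (hM : M0 ≤ P) (hp : p.Prime) (hlt : P < p) :
    ¬ p ∣ MQ M0 P := by
  intro hd
  rcases hp.dvd_mul.1 hd with h1 | h1
  · have := Nat.le_of_dvd h h1
    omega
  · obtain ⟨q, hq, hd⟩ := (hp.prime.dvd_finsetProd_iff _).1 h1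
    obtain ⟨h1, h2⟩ := mem_filter.1 hq
    have := (Nat.prime_dvd_prime_iff_eq hp h2).1 hd
    subst this
    have := mem_range.1 h1
    omega

/-- small primes -/
lemma small_prime {g : ℤ} (hg : Squarefree g) {p M : ℕ} (hp : p.Prime) (hpM : p ∣ M) {E : ℤ}
    (hE : (M : ℤ) ∣ E - 1) : ¬ (p : ℤ) ^ 2 ∣ g * E := by
  intro hd
  have hpp : Prime (p : ℤ) := Nat.prime_iff_prime_int.1 hp
  have h1 : (p : ℤ) ∣ E - 1 := (show (p : ℤ) ∣ (M : ℤ) by exact_mod_cast hpM).trans hE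
  have h2 : ¬ (p : ℤ) ∣ E := by
    intro h3
    have h4 := dvd_sub h3 h1
    rw [sub_sub_cancel] at h4
    exact hpp.not_isUnit (isUnit_of_dvd_one h4)
  have h3 : (p : ℤ) ^ 2 ∣ g :=
    IsCoprime.dvd_of_dvd_mul_right ((isCoprime_of hp h2).pow_left) hd
  exact hpp.not_isUnit (hg (p : ℤ) (by rw [← pow_two]; exact h3))

lemma to_X_unif (A e : ℕ) (hA : 0 < A) (he : 0 < e) : ∃ κ : ℝ, 0 < κ ∧ ∀ (G N : ℕ → Prop) (c : ℝ),
    0 < c → (∀ t, 0 < t → G t → N (A * t ^ e)) →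
    (∀ᶠ T : ℕ in atTop, c * T ≤ (((Icc 1 T).filter G).card : ℝ)) →
    ∀ᶠ X : ℕ in atTop, κ * c * (X : ℝ) ^ (1 / (e : ℝ)) ≤
      ({n : ℕ | 0 < n ∧ n ≤ X ∧ N n}.ncard : ℝ) := by
  have her : (0 : ℝ) < e := by exact_mod_cast he
  have hAr : (0 : ℝ) < A := by exact_mod_cast hA
  set B : ℝ := ((A : ℝ) ^ (1 / (e : ℝ)))⁻¹ with hB
  have hB0 : 0 < B := by positivity
  refine ⟨B / 2, by positivity, ?_⟩
  intro G N c hc hGN h
  set τ : ℕ → ℕ := fun X => ⌊B * (X : ℝ) ^ (1 / (e : ℝ))⌋₊ with hτ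
  have ht1 : Tendsto (fun X : ℕ => B * (X : ℝ) ^ (1 / (e : ℝ))) atTop atTop :=
    ((tendsto_rpow_atTop (by positivity)).comp tendsto_natCast_atTop_atTop).const_mul_atTop hB0
  have ht2 : Tendsto τ atTop atTop := tendsto_nat_floor_atTop.comp ht1
  filter_upwards [ht2.eventually h, ht1.eventually_ge_atTop 2] with X h1 h2
  have h3 : B * (X : ℝ) ^ (1 / (e : ℝ)) < τ X + 1 := Nat.lt_floor_add_one _
  have h4 : B / 2 * c * (X : ℝ) ^ (1 / (e : ℝ)) ≤ c * τ X := by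
    have : B / 2 * c * (X : ℝ) ^ (1 / (e : ℝ)) = c * (B * (X : ℝ) ^ (1 / (e : ℝ)) / 2) := by ring
    rw [this]
    apply mul_le_mul_of_nonneg_left _ hc.le
    linarith
  refine h4.trans (h1.trans ?_)
  rw [Nat.cast_le]
  have h5 : {n : ℕ | 0 < n ∧ n ≤ X ∧ N n} = (((Icc 1 X).filter N : Finset ℕ) : Set ℕ) := by
    ext n
    rw [mem_coe, mem_filter, mem_Icc, and_assoc]
    rfl
  rw [h5, Set.ncard_coe_finset]
  apply card_le_card_of_injOn (fun t => A * t ^ e)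
  · intro t ht
    obtain ⟨h5, h6⟩ := mem_filter.1 (mem_coe.1 ht)
    obtain ⟨h7, h8⟩ := mem_Icc.1 h5
    apply mem_coe.2
    refine mem_filter.2 ⟨mem_Icc.2 ⟨?_, ?_⟩, hGN t h7 h6⟩
    · exact Nat.mul_pos hA (pow_pos h7 e)
    · have h9 : (t : ℝ) ≤ B * (X : ℝ) ^ (1 / (e : ℝ)) :=
        le_trans (by exact_mod_cast h8) (Nat.floor_le (by positivity))
      have h10 : ((A : ℝ) ^ (1 / (e : ℝ)) * t) ^ e ≤ ((X : ℝ) ^ (1 / (e : ℝ))) ^ e := by
        apply pow_le_pow_left₀ (by positivity)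
        rw [hB, inv_mul_eq_div, le_div_iff₀ (by positivity)] at h9
        linarith
      rw [mul_pow, ← Real.rpow_natCast, ← Real.rpow_mul hAr.le, one_div_mul_cancel her.ne',
        Real.rpow_one, ← Real.rpow_natCast ((X : ℝ) ^ (1 / (e : ℝ))), ← Real.rpow_mul
        (Nat.cast_nonneg _), one_div_mul_cancel her.ne', Real.rpow_one] at h10
      exact_mod_cast h10
  · intro t ht t' ht' h
    simp only at h
    have h5 := Nat.eq_of_mul_eq_mul_left hA h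
    exact Nat.pow_left_injective (Nat.pos_iff_ne_zero.1 he) h5

/-- clusters, from the half tuple theorem -/
theorem clusters_of (A e e' C M : ℕ) (hA : 0 < A) (he : 0 < e) (hM : 0 < M) (D : ℕ → ℤ → ℤ)
    (N0 : ℕ → ℕ) (Q : ℕ → Prop)
    (hhalf : ∀ m : ℕ, 0 < m → ∀ᶠ T : ℕ in atTop, (1 / (2 * M) : ℝ) * T ≤
      (((Ioc (0 : ℤ) T).filter (fun t : ℤ => (N0 m : ℤ) < t ∧ ((M : ℤ) ∣ t - 1 ∧
        m ≤ 2 * ((Finset.Icc 1 m).filter (fun l => Squarefree (D l t))).card))).card : ℝ))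
    (hQ : ∀ m : ℕ, ∀ l ∈ Finset.Icc 1 m, ∀ t : ℕ, N0 m < t → (M : ℤ) ∣ (t : ℤ) - 1 →
      Squarefree (D l t) → Q (D l t).natAbs)
    (hnear : ∀ m : ℕ, ∀ l ∈ Finset.Icc 1 m, ∀ t : ℕ, N0 m < t →
      |(((D l t).natAbs : ℕ) : ℤ) - ((A * t ^ e : ℕ) : ℤ)| ≤ ((C * m ^ e' : ℕ) : ℤ))
    (hinj : ∀ m : ℕ, ∀ l ∈ Finset.Icc 1 m, ∀ l' ∈ Finset.Icc 1 m, ∀ t : ℕ, N0 m < t →
      (D l t).natAbs = (D l' t).natAbs → l = l') :
    ∃ c : ℝ, 0 < c ∧ ∀ m : ℕ, ∀ᶠ X : ℕ in atTop, c * (X : ℝ) ^ (1 / (e : ℝ)) ≤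
      ({n : ℕ | 0 < n ∧ n ≤ X ∧
        m ≤ {d : ℕ | |(d : ℤ) - n| ≤ ((C * 2 ^ e' * m ^ e' : ℕ) : ℤ) ∧ Q d}.ncard}.ncard : ℝ) := by
  have hMr : (0 : ℝ) < M := by exact_mod_cast hM
  obtain ⟨κ, hκ, hX⟩ := to_X_unif A e hA he
  refine ⟨κ * (1 / (2 * M)), by positivity, ?_⟩
  intro m
  rcases Nat.eq_zero_or_pos m with hm0 | hm
  · subst hm0
    refine hX (fun _ => True) (fun n : ℕ => 0 ≤ {d : ℕ | |(d : ℤ) - n| ≤
      ((C * 2 ^ e' * 0 ^ e' : ℕ) : ℤ) ∧ Q d}.ncard) (1 / (2 * M)) (by positivity)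
      (fun t ht _ => Nat.zero_le _) ?_
    filter_upwards with T
    simp only [filter_true, Nat.card_Icc, Nat.add_sub_cancel]
    have : (1 : ℝ) / (2 * M) ≤ 1 := by
      rw [div_le_one (by positivity)]
      have : (1 : ℝ) ≤ M := by exact_mod_cast hM
      linarith
    have hT : (0 : ℝ) ≤ T := Nat.cast_nonneg _
    nlinarith
  · have h1 : ∀ᶠ T : ℕ in atTop, (1 / (2 * M) : ℝ) * T ≤ (((Icc 1 T).filter (fun t : ℕ =>
        N0 (2 * m) < t ∧ (fun t : ℤ => (M : ℤ) ∣ t - 1 ∧ 2 * m ≤ 2 * ((Finset.Icc 1 (2 * m)).filter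
          (fun l => Squarefree (D l t))).card) (t : ℤ))).card : ℝ) := by
      filter_upwards [hhalf (2 * m) (by omega)] with T hT
      refine hT.trans ?_
      rw [Nat.cast_le]
      convert toNat_count T (N0 (2 * m)) (fun t : ℤ => (M : ℤ) ∣ t - 1 ∧
        2 * m ≤ 2 * ((Finset.Icc 1 (2 * m)).filter (fun l => Squarefree (D l t))).card)
    refine hX _ _ (1 / (2 * M)) (by positivity) ?_ (by convert h1)
    rintro t ht ⟨hlt, hMt, hcard⟩
    set F : Finset ℕ := (Finset.Icc 1 (2 * m)).filter (fun l => Squarefree (D l t)) with hF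
    have hFm : m ≤ (F.image (fun l => (D l t).natAbs)).card := by
      rw [card_image_of_injOn]
      · omega
      · intro l hl l' hl' he
        exact hinj (2 * m) l (mem_filter.1 (mem_coe.1 hl)).1 l' (mem_filter.1 (mem_coe.1 hl')).1 t
          hlt he
    refine hFm.trans ?_
    rw [← Set.ncard_coe_finset]
    apply Set.ncard_le_ncard
    · intro d hd
      obtain ⟨l, hl, rfl⟩ := mem_image.1 (mem_coe.1 hd)
      obtain ⟨h2, h3⟩ := mem_filter.1 hl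
      refine ⟨?_, hQ (2 * m) l h2 t hlt hMt h3⟩
      refine (hnear (2 * m) l h2 t hlt).trans (le_of_eq ?_)
      push_cast
      ring
    · apply (Set.finite_Iic (A * t ^ e + C * 2 ^ e' * m ^ e')).subset
      intro d hd
      have h2 := (abs_le.1 hd.1).2
      rw [Set.mem_Iic]
      omega

end Pool.Agent.TH4.CT
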